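import Mathlib

/-! Compound Poisson measures. -/

open MeasureTheory Filter Topology Set
open scoped ENNReal NNReal Nat

set_option linter.unusedSectionVars false

namespace Pool.Agent.Lib.MP_62a15f_an.Cv

variable {E : Type} [NormedAddCommGroup E] [InnerProductSpace ℝ E] [FiniteDimensional ℝ E]
  [MeasurableSpace E] [BorelSpace E]

/-- Convolution powers. -/
noncomputable def pw (ν : Measure E) : ℕ → Measure E
  | 0 => Measure.dirac 0
  | m + 1 => ν ∗ pw ν m

/-- The Poisson weights without the power of the mass. -/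
noncomputable def wt (ν : Measure E) (m : ℕ) : ℝ≥0∞ :=
  ENNReal.ofReal (Real.exp (-ν.real univ) / m !)

/-- The compound Poisson measure with jump measure `ν`. -/
noncomputable def cp (ν : Measure E) : Measure E := Measure.sum fun m => wt ν m • pw ν m

variable (ν : Measure E) [IsFiniteMeasure ν]

instance pw_fin (m : ℕ) : IsFiniteMeasure (pw ν m) := by
  induction m with
  | zero => unfold pw; infer_instance
  | succ m ih => unfold pw; infer_instance

lemma pw_univ (m : ℕ) : pw ν m univ = ν univ ^ m := by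
  induction m with
  | zero => simp [pw]
  | succ m ih =>
    rw [pw, ← lintegral_one, Measure.lintegral_conv measurable_const]
    simp [ih, pow_succ]

lemma wt_succ (m : ℕ) : wt ν (m + 1) * (m + 1) = wt ν m := by
  have h : ((m : ℝ≥0∞) + 1) = ENNReal.ofReal ((m : ℝ) + 1) := by
    rw [ENNReal.ofReal_add (by positivity) zero_le_one]; simp
  rw [h, wt, wt, ← ENNReal.ofReal_mul (by positivity), Nat.factorial_succ]
  congr 1
  push_cast
  field_simp

lemma wt_zero : wt ν 0 = ENNReal.ofReal (Real.exp (-ν.real univ)) := by simp [wt]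

lemma wt_sum : ∑' m, wt ν m * ν univ ^ m = 1 := by
  have h1 : ∀ m, wt ν m * ν univ ^ m =
      ENNReal.ofReal (Real.exp (-ν.real univ) * (ν.real univ ^ m / m !)) := fun m => by
    rw [wt, ← ofReal_measureReal (μ := ν) (s := univ), ← ENNReal.ofReal_pow measureReal_nonneg,
      ← ENNReal.ofReal_mul (by positivity)]
    congr 1
    ring
  have h2 := (NormedSpace.expSeries_div_hasSum_exp (ν.real univ)).mul_left
    (Real.exp (-ν.real univ))
  rw [← Real.exp_eq_exp_ℝ, ← Real.exp_add, neg_add_cancel, Real.exp_zero] at h2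
  simp only [h1]
  rw [← ENNReal.ofReal_tsum_of_nonneg (fun m => by positivity) h2.summable, h2.tsum_eq,
    ENNReal.ofReal_one]

lemma lintegral_cp (F : E → ℝ≥0∞) : ∫⁻ x, F x ∂cp ν = ∑' m, wt ν m * ∫⁻ x, F x ∂pw ν m := by
  simp [cp, lintegral_sum_measure, lintegral_smul_measure]

instance cp_prob : IsProbabilityMeasure (cp ν) := ⟨by
  rw [← lintegral_one, lintegral_cp]
  simp only [lintegral_one, pw_univ, wt_sum]⟩

/-- The characteristic exponent. -/
noncomputable def psi (ν : Measure E) (ξ : E) : ℂ := charFun ν ξ - ν.real univ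

lemma charFun_pw (m : ℕ) (ξ : E) : charFun (pw ν m) ξ = charFun ν ξ ^ m := by
  induction m with
  | zero => simp [pw]
  | succ m ih => rw [pw, charFun_conv, ih, pow_succ']

lemma int_char (κ : Measure E) [IsFiniteMeasure κ] (ξ : E) :
    Integrable (fun x : E => Complex.exp ((inner ℝ x ξ : ℝ) * Complex.I)) κ :=
  Integrable.of_bound (by fun_prop) 1 (.of_forall fun x => by
    rw [Complex.norm_exp_ofReal_mul_I])

lemma charFun_cp (ξ : E) : charFun (cp ν) ξ = Complex.exp (psi ν ξ) := by
  have h1 := hasSum_integral_measure (μ := fun m => wt ν m • pw ν m) (int_char (cp ν) ξ)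
  have h2 := (NormedSpace.expSeries_div_hasSum_exp (charFun ν ξ)).mul_left
    (Complex.exp (-(ν.real univ : ℝ)))
  rw [← Complex.exp_eq_exp_ℂ, ← Complex.exp_add, neg_add_eq_sub] at h2
  have h3 : (fun m => ∫ x : E, Complex.exp ((inner ℝ x ξ : ℝ) * Complex.I) ∂wt ν m • pw ν m) =
      fun m => Complex.exp (-(ν.real univ : ℝ)) * (charFun ν ξ ^ m / m !) := ?_
  · rw [h3] at h1
    exact h1.unique h2
  funext m
  rw [integral_smul_measure, ← charFun_apply, charFun_pw, wt,
    ENNReal.toReal_ofReal (by positivity), Complex.real_smul]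
  push_cast
  ring

lemma cp_ge {F : E → ℝ≥0∞} :
    ENNReal.ofReal (Real.exp (-ν.real univ)) * ∫⁻ x, F x ∂ν ≤ ∫⁻ x, F x ∂cp ν := by
  rw [lintegral_cp]
  refine le_trans (le_of_eq ?_) (ENNReal.le_tsum 1)
  simp [wt, pw]

lemma cp_le {F : E → ℝ≥0∞} (hF : Measurable F) :
    ∫⁻ x, F x ∂cp ν ≤ ENNReal.ofReal (Real.exp (-ν.real univ)) * F 0 +
      ∫⁻ x, ∫⁻ y, F (x + y) ∂cp ν ∂ν := by
  rw [lintegral_cp, tsum_eq_zero_add' ENNReal.summable, wt_zero]
  refine add_le_add (by simp [pw]) ?_
  have hm : ∀ m, Measurable fun x => ∫⁻ y, F (x + y) ∂pw ν m := fun m =>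
    (hF.comp measurable_add).lintegral_prod_right'
  simp only [lintegral_cp]
  rw [lintegral_tsum fun m => ((hm m).const_mul _).aemeasurable]
  refine ENNReal.tsum_le_tsum fun m => ?_
  rw [lintegral_const_mul _ (hm m), pw, Measure.lintegral_conv hF, ← wt_succ ν m]
  exact mul_le_mul_left (le_mul_of_one_le_right' le_add_self) _

lemma cp_subadd {F : E → ℝ≥0∞} (hF : Measurable F) (h0 : F 0 = 0)
    (ha : ∀ x y, F (x + y) ≤ F x + F y) : ∫⁻ x, F x ∂cp ν ≤ ∫⁻ x, F x ∂ν := by
  have h1 : ∀ m, ∫⁻ x, F x ∂pw ν (m + 1) ≤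
      ν univ ^ m * ∫⁻ x, F x ∂ν + ν univ * ∫⁻ x, F x ∂pw ν m := fun m => by
    rw [pw, Measure.lintegral_conv hF]
    refine (lintegral_mono fun x => lintegral_mono fun y => ha x y).trans (le_of_eq ?_)
    simp only [lintegral_add_left measurable_const, lintegral_const, pw_univ]
    rw [lintegral_add_right _ measurable_const, lintegral_mul_const _ hF, lintegral_const]
    ring
  have h2 : ∀ m : ℕ, ∫⁻ x, F x ∂pw ν (m + 1) ≤ (m + 1) * (ν univ ^ m * ∫⁻ x, F x ∂ν) := by
    intro m
    induction m with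
    | zero => simp [pw]
    | succ m ih =>
      refine (h1 _).trans ((add_le_add le_rfl (mul_le_mul_right ih _)).trans (le_of_eq ?_))
      push_cast
      ring
  rw [lintegral_cp, tsum_eq_zero_add' ENNReal.summable]
  have h3 : ∫⁻ x, F x ∂pw ν 0 = 0 := by simp [pw, h0]
  rw [h3, mul_zero, zero_add]
  refine (ENNReal.tsum_le_tsum fun m => mul_le_mul_right (h2 m) _).trans (le_of_eq ?_)
  simp only [← mul_assoc, wt_succ]
  rw [ENNReal.tsum_mul_right, wt_sum, one_mul]

lemma cp_ne_zero : cp ν {0}ᶜ ≤ ν univ := by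
  have hs : MeasurableSet ({0}ᶜ : Set E) := (measurableSet_singleton 0).compl
  rw [← lintegral_indicator_one hs]
  refine (cp_le ν (measurable_one.indicator hs)).trans ?_
  rw [indicator_of_notMem (by simp), mul_zero, zero_add, ← one_mul (ν univ), ← lintegral_const]
  refine lintegral_mono fun x => ?_
  refine (lintegral_mono fun y => indicator_le_self _ _ _).trans ?_
  simp

lemma psi_add (κ : Measure E) [IsFiniteMeasure κ] (ξ : E) :
    psi (ν + κ) ξ = psi ν ξ + psi κ ξ := by
  simp only [psi, charFun_apply]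
  rw [integral_add_measure (int_char ν ξ) (int_char κ ξ), measureReal_add_apply]
  push_cast
  ring

lemma psi_zero (ξ : E) : psi 0 ξ = 0 := by simp [psi]

lemma psi_sum {ι : Type} (F : Finset ι) (κ : ι → Measure E) [∀ i, IsFiniteMeasure (κ i)] (ξ : E) :
    psi (∑ i ∈ F, κ i) ξ = ∑ i ∈ F, psi (κ i) ξ := by
  classical
  induction F using Finset.induction_on with
  | empty => simp [psi_zero]
  | insert i F hi ih => rw [Finset.sum_insert hi, Finset.sum_insert hi, psi_add, ih]

lemma enorm_psi_le (ξ : E) : ‖psi ν ξ‖ₑ ≤ ‖ξ‖ₑ * ∫⁻ y, ‖y‖ₑ ∂ν := by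
  have h1 : psi ν ξ = ∫ x, (Complex.exp ((inner ℝ x ξ : ℝ) * Complex.I) - 1) ∂ν := by
    rw [integral_sub (int_char ν ξ) (integrable_const _), psi, charFun_apply]
    simp
  rw [h1, ← lintegral_const_mul _ measurable_enorm]
  refine (enorm_integral_le_lintegral_enorm _).trans (lintegral_mono fun x => ?_)
  rw [← ofReal_norm, ← ofReal_norm, ← ofReal_norm, ← ENNReal.ofReal_mul (norm_nonneg _)]
  refine ENNReal.ofReal_le_ofReal ?_
  rw [mul_comm _ Complex.I]
  refine Real.norm_exp_I_mul_ofReal_sub_one_le.trans ?_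
  rw [mul_comm]
  exact norm_inner_le_norm _ _

lemma charFun_neg_map (κ : Measure E) (ξ : E) :
    charFun (κ.map fun y => -y) ξ = charFun κ (-ξ) := by
  rw [charFun_apply, charFun_apply, integral_map measurable_neg.aemeasurable (by fun_prop)]
  simp

lemma psi_neg (h : ν.map (fun y => -y) = ν) (ξ : E) : psi ν (-ξ) = psi ν ξ := by
  rw [psi, psi, ← charFun_neg_map, h]

end Pool.Agent.Lib.MP_62a15f_an.Cv
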