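import Pool.Agent.Lib.MP_62a15f_an.Defs

/-! Symmetric convolution semigroups. -/

open MeasureTheory Filter Topology
open scoped ENNReal NNReal

namespace Pool.Agent.Lib.MP_62a15f_an.Cv

variable {E : Type} [NormedAddCommGroup E] [MeasurableSpace E]

/-- A convolution semigroup of symmetric probability measures that tend to the point mass at the
origin as `t → 0`. -/
def IsConvSemigroup (m : ℝ≥0 → Measure E) : Prop :=
  (∀ t, IsProbabilityMeasure (m t)) ∧ (∀ t, (m t).map (fun y => -y) = m t) ∧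
    m 0 = Measure.dirac 0 ∧ (∀ s t, m (s + t) = Measure.conv (m s) (m t)) ∧
    ∀ ε : ℝ, 0 < ε → Tendsto (fun t => m t {y | ε ≤ ‖y‖}) (𝓝 0) (𝓝 0)

/-- The operators act by convolution with the measures `m t`. -/
def ActsBy {μ : Measure E} (U : Family μ) (m : ℝ≥0 → Measure E) : Prop :=
  ∀ (p : ℝ≥0∞) [Fact (1 ≤ p)] (t : ℝ≥0) (f : L μ p),
    ((U p t).at f).fn =ᵐ[μ] fun x => ∫ y, f.fn (x - y) ∂(m t)

/-- There are a symmetric convolution semigroup and a potential `V ≥ 0`, `T`-bounded in `L¹`,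
with `β = 0` and `δ > 1`. -/
def HasConvGap (μ : Measure E) : Prop :=
  ∃ (m : ℝ≥0 → Measure E) (U : Family μ) (V : E → ℝ),
    IsConvSemigroup m ∧ ActsBy U m ∧
    IsSymmSubMarkov U ∧ Measurable V ∧ (∀ x, 0 ≤ V x) ∧ IsGenBounded U V ∧
    ∃ A : ℝ → Op (L μ 1), (∀ l : ℝ, 0 < l → IsPotentialResolvent U V l (A l)) ∧
      ∃ δ : ℝ≥0∞, Tendsto (fun l : ℝ => specRad (A l)) atTop (𝓝 δ) ∧
        formBound U V = 0 ∧ 1 < δ

end Pool.Agent.Lib.MP_62a15f_an.Cv
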