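import Pool.Agent.Lib.MP_62a15f_an.Cv.CP
import Pool.Agent.Lib.MP_62a15f_an.Cv.Defs

/-! Infinite convolutions of compound Poisson measures. -/

open MeasureTheory ProbabilityTheory Filter Topology Set
open scoped ENNReal NNReal

set_option linter.unusedSectionVars false

namespace Pool.Agent.Lib.MP_62a15f_an.Cv

variable {E : Type} [NormedAddCommGroup E] [InnerProductSpace ℝ E] [FiniteDimensional ℝ E]
  [MeasurableSpace E] [BorelSpace E]

/-- The total first moment. -/
noncomputable def mom (ν : ℕ → Measure E) : ℝ≥0∞ := ∑' i, ∫⁻ y, ‖y‖ₑ ∂ν i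

/-- The sum of a sequence. -/
noncomputable def sm (ω : ℕ → E) : E := limUnder atTop fun n => ∑ i ∈ Finset.range n, ω i

lemma meas_sm : Measurable (sm : (ℕ → E) → E) :=
  (StronglyMeasurable.limUnder (l := atTop)
    (f := fun (n : ℕ) (ω : ℕ → E) => ∑ i ∈ Finset.range n, ω i) fun _ =>
      (Finset.measurable_sum _ fun i _ => measurable_pi_apply i).stronglyMeasurable).measurable

variable (ν : ℕ → Measure E) [∀ i, IsFiniteMeasure (ν i)]

/-- The product space. -/
noncomputable def PP : Measure (ℕ → E) := Measure.infinitePi fun i => cp (ν i)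

instance PP_prob : IsProbabilityMeasure (PP ν) := by unfold PP; infer_instance

/-- The law of the sum. -/
noncomputable def MM : Measure E := (PP ν).map sm

instance MM_prob : IsProbabilityMeasure (MM ν) :=
  Measure.isProbabilityMeasure_map meas_sm.aemeasurable

lemma lint_PP : ∫⁻ ω, ∑' i, ‖ω i‖ₑ ∂PP ν ≤ mom ν := by
  rw [lintegral_tsum fun i => (measurable_pi_apply i).enorm.aemeasurable]
  refine ENNReal.tsum_le_tsum fun i => ?_
  have h := (measurePreserving_eval_infinitePi (fun i => cp (ν i)) i).lintegral_comp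
    (measurable_enorm (ε := E))
  refine (le_of_eq h).trans (cp_subadd _ measurable_enorm (by simp) enorm_add_le)

variable {ν}

lemma ae_tendsto (h : mom ν ≠ ∞) : ∀ᵐ ω ∂PP ν,
    Tendsto (fun n => ∑ i ∈ Finset.range n, ω i) atTop (𝓝 (sm ω)) ∧
      ‖sm ω‖ₑ ≤ ∑' i, ‖ω i‖ₑ := by
  have h1 := ae_lt_top (Measurable.tsum fun i => (measurable_pi_apply i).enorm)
    (ne_top_of_le_ne_top h (lint_PP ν))
  filter_upwards [h1] with ω hω
  have h2 : Summable ω := .of_enorm hω.ne
  have h3 := h2.hasSum.tendsto_sum_nat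
  have h4 : sm ω = ∑' i, ω i := h3.limUnder_eq
  rw [h4]
  exact ⟨h3, enorm_tsum_le_tsum_enorm⟩

lemma lint_MM (h : mom ν ≠ ∞) : ∫⁻ y, ‖y‖ₑ ∂MM ν ≤ mom ν := by
  rw [MM, lintegral_map measurable_enorm meas_sm]
  exact (lintegral_mono_ae ((ae_tendsto h).mono fun ω hω => hω.2)).trans (lint_PP ν)

lemma MM_tail (h : mom ν ≠ ∞) {ε : ℝ} :
    ENNReal.ofReal ε * MM ν {y | ε ≤ ‖y‖} ≤ mom ν := by
  refine le_trans (mul_le_mul_right (measure_mono fun y hy => ?_) _)
    ((mul_meas_ge_le_lintegral measurable_enorm (ENNReal.ofReal ε)).trans (lint_MM h))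
  show ENNReal.ofReal ε ≤ ‖y‖ₑ
  rw [← ofReal_norm]
  exact ENNReal.ofReal_le_ofReal hy

lemma summable_psi (h : mom ν ≠ ∞) (ξ : E) : Summable fun i => psi (ν i) ξ := by
  refine .of_enorm (ne_top_of_le_ne_top ?_ (ENNReal.tsum_le_tsum fun i => enorm_psi_le (ν i) ξ))
  rw [ENNReal.tsum_mul_left]
  exact ENNReal.mul_ne_top enorm_ne_top h

lemma charFun_MM (h : mom ν ≠ ∞) (ξ : E) :
    charFun (MM ν) ξ = Complex.exp (∑' i, psi (ν i) ξ) := by
  have hind : iIndepFun (fun i (ω : ℕ → E) => ω i) (PP ν) :=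
    iIndepFun_infinitePi (X := fun _ ω => ω) fun _ => measurable_id
  have hc : Continuous fun x : E => Complex.exp ((inner ℝ x ξ : ℝ) * Complex.I) := by fun_prop
  have hm : ∀ n, Measurable fun ω : ℕ → E => ∑ i ∈ Finset.range n, ω i := fun n =>
    Finset.measurable_sum _ fun i _ => measurable_pi_apply i
  have h1 : ∀ n, ∫ ω, Complex.exp ((inner ℝ (∑ i ∈ Finset.range n, ω i) ξ : ℝ) * Complex.I) ∂PP ν
      = Complex.exp (∑ i ∈ Finset.range n, psi (ν i) ξ) := fun n => by
    have h2 := congrFun ((hind.restrict (Finset.range n)).charFun_map_fun_finsetSum_eq_prod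
      fun i _ => (measurable_pi_apply i).aemeasurable) ξ
    rw [charFun_apply, integral_map (hm n).aemeasurable hc.aestronglyMeasurable] at h2
    rw [h2, Complex.exp_sum, Finset.prod_apply]
    refine Finset.prod_congr rfl fun i _ => ?_
    rw [PP, Measure.infinitePi_map_eval, charFun_cp]
  have h3 := tendsto_integral_of_dominated_convergence (μ := PP ν)
    (F := fun n ω => Complex.exp ((inner ℝ (∑ i ∈ Finset.range n, ω i) ξ : ℝ) * Complex.I))
    (f := fun ω => Complex.exp ((inner ℝ (sm ω) ξ : ℝ) * Complex.I)) (fun _ => 1)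
    (fun n => (hc.measurable.comp (hm n)).aestronglyMeasurable) (integrable_const _)
    (fun n => .of_forall fun ω => by rw [Complex.norm_exp_ofReal_mul_I])
    ((ae_tendsto h).mono fun ω hω => (hc.tendsto _).comp hω.1)
  simp only [h1] at h3
  rw [MM, charFun_apply, integral_map meas_sm.aemeasurable hc.aestronglyMeasurable]
  exact tendsto_nhds_unique h3
    ((Complex.continuous_exp.tendsto _).comp (summable_psi h ξ).hasSum.tendsto_sum_nat)

omit [∀ i, IsFiniteMeasure (ν i)] in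
lemma mom_mono {a : ℕ → Measure E} (h : ∀ i, a i ≤ ν i) : mom a ≤ mom ν :=
  ENNReal.tsum_le_tsum fun i => lintegral_mono' (h i) le_rfl

lemma MM_conv {a b : ℕ → Measure E} [∀ i, IsFiniteMeasure (a i)] [∀ i, IsFiniteMeasure (b i)]
    (h : mom ν ≠ ∞) (hab : ∀ i, ν i = a i + b i) : MM ν = MM a ∗ MM b := by
  have ha : mom a ≠ ∞ :=
    ne_top_of_le_ne_top h (mom_mono fun i => (hab i).symm ▸ Measure.le_add_right le_rfl)
  have hb : mom b ≠ ∞ :=
    ne_top_of_le_ne_top h (mom_mono fun i => (hab i).symm ▸ Measure.le_add_left le_rfl)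
  refine Measure.ext_of_charFun (funext fun ξ => ?_)
  rw [charFun_conv, charFun_MM h, charFun_MM ha, charFun_MM hb, ← Complex.exp_add,
    ← (summable_psi ha ξ).tsum_add (summable_psi hb ξ)]
  simp only [hab, psi_add]

/-- The sequence with the terms in `F` removed. -/
noncomputable def cut (F : Finset ℕ) (ν : ℕ → Measure E) (i : ℕ) : Measure E :=
  if i ∈ F then 0 else ν i

instance cut_fin (F : Finset ℕ) (i : ℕ) : IsFiniteMeasure (cut F ν i) := by
  unfold cut; split_ifs <;> infer_instance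

omit [∀ i, IsFiniteMeasure (ν i)] in
lemma mom_cut (F : Finset ℕ) : mom (cut F ν) ≤ mom ν :=
  mom_mono fun i => by
    unfold cut; split_ifs
    exacts [Measure.zero_le _, le_rfl]

lemma MM_split (h : mom ν ≠ ∞) (F : Finset ℕ) : MM ν = cp (∑ i ∈ F, ν i) ∗ MM (cut F ν) := by
  have hb : mom (cut F ν) ≠ ∞ := ne_top_of_le_ne_top h (mom_cut F)
  refine Measure.ext_of_charFun (funext fun ξ => ?_)
  rw [charFun_conv, charFun_MM h, charFun_cp, charFun_MM hb, ← Complex.exp_add, psi_sum]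
  congr 1
  have h1 : HasSum (fun i => if i ∈ F then psi (ν i) ξ else 0) (∑ i ∈ F, psi (ν i) ξ) := by
    have := hasSum_sum_of_ne_finset_zero (s := F) (L := .unconditional ℕ)
      (f := fun i => if i ∈ F then psi (ν i) ξ else 0) fun i hi => if_neg hi
    rwa [Finset.sum_congr rfl fun i hi => if_pos hi] at this
  rw [← (h1.add (summable_psi hb ξ).hasSum).tsum_eq]
  refine tsum_congr fun i => ?_
  unfold cut
  split_ifs <;> simp [psi_zero]

lemma MM_symm (h : mom ν ≠ ∞) (hs : ∀ i, (ν i).map (fun y => -y) = ν i) :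
    (MM ν).map (fun y => -y) = MM ν := by
  have := Measure.isProbabilityMeasure_map (μ := MM ν) (measurable_neg (G := E)).aemeasurable
  refine Measure.ext_of_charFun (funext fun ξ => ?_)
  rw [charFun_neg_map, charFun_MM h, charFun_MM h]
  simp only [psi_neg _ (hs _)]

/-- The sequence scaled by the time. -/
noncomputable def sc (t : ℝ≥0) (ν : ℕ → Measure E) (i : ℕ) : Measure E := t • ν i

instance sc_fin (t : ℝ≥0) (i : ℕ) : IsFiniteMeasure (sc t ν i) := by
  unfold sc; infer_instance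

omit [∀ i, IsFiniteMeasure (ν i)] in
lemma mom_sc (t : ℝ≥0) : mom (sc t ν) = t * mom ν := by
  simp only [mom, sc, lintegral_smul_measure, ← ENNReal.tsum_mul_left]
  rfl

omit [∀ i, IsFiniteMeasure (ν i)] in
lemma mom_sc_ne (h : mom ν ≠ ∞) (t : ℝ≥0) : mom (sc t ν) ≠ ∞ := by
  rw [mom_sc]
  exact ENNReal.mul_ne_top ENNReal.coe_ne_top h

lemma tail_tendsto {κ : ℝ≥0 → ℕ → Measure E} [∀ t i, IsFiniteMeasure (κ t i)] {C : ℝ≥0∞}
    (hC : C ≠ ∞) (h : ∀ t : ℝ≥0, mom (κ t) ≤ t * C) (ε : ℝ) (hε : 0 < ε) :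
    Tendsto (fun t => MM (κ t) {y | ε ≤ ‖y‖}) (𝓝 0) (𝓝 0) := by
  have h0 : ENNReal.ofReal ε ≠ 0 := (ENNReal.ofReal_pos.2 hε).ne'
  have h1 : Tendsto (fun t : ℝ≥0 => (t : ℝ≥0∞) * (C / ENNReal.ofReal ε)) (𝓝 0) (𝓝 0) := by
    have := ENNReal.Tendsto.mul_const (b := C / ENNReal.ofReal ε)
      (ENNReal.continuous_coe.tendsto 0) (Or.inr (ENNReal.div_ne_top hC h0))
    simpa using this
  refine tendsto_of_tendsto_of_tendsto_of_le_of_le tendsto_const_nhds h1 (fun _ => zero_le)
    fun t => ?_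
  have h2 := (MM_tail (ν := κ t) (ne_top_of_le_ne_top
    (ENNReal.mul_ne_top ENNReal.coe_ne_top hC) (h t)) (ε := ε)).trans (h t)
  show _ ≤ (t : ℝ≥0∞) * (C / ENNReal.ofReal ε)
  rw [← mul_div_assoc, ENNReal.le_div_iff_mul_le (Or.inl h0) (Or.inl ENNReal.ofReal_ne_top),
    mul_comm]
  exact h2

theorem MM_semigroup (h : mom ν ≠ ∞) (hs : ∀ i, (ν i).map (fun y => -y) = ν i) :
    IsConvSemigroup fun t => MM (sc t ν) := by
  refine ⟨fun t => inferInstance, fun t => MM_symm (mom_sc_ne h t) fun i => ?_, ?_,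
    fun s t => MM_conv (mom_sc_ne h _) fun i => add_smul s t (ν i),
    tail_tendsto h fun t => (mom_sc t).le⟩
  · rw [sc, Measure.map_smul, hs]
  · refine Measure.ext_of_charFun (funext fun ξ => ?_)
    rw [charFun_MM (mom_sc_ne h 0)]
    simp [sc, psi_zero]

end Pool.Agent.Lib.MP_62a15f_an.Cv
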