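import Pool.Agent.Lib.MP_62a15f_an.Cv.Sg
import Pool.Agent.Lib.MP_62a15f_an.Cv.Inf

/-! Lower bounds for the quadratic form. -/

open MeasureTheory Filter Topology Set
open scoped ENNReal NNReal InnerProductSpace

set_option linter.unusedSectionVars false

namespace Pool.Agent.Lib.MP_62a15f_an.Cv

variable {E : Type} [NormedAddCommGroup E] [InnerProductSpace ℝ E] [FiniteDimensional ℝ E]
  [MeasurableSpace E] [BorelSpace E] {μ : Measure E} [μ.IsAddHaarMeasure] {m : ℕ}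

/-- The symmetric counting measure of a finite family of jumps. -/
noncomputable def sym (σ : Fin m → E) : Measure E :=
  ∑ i, (Measure.dirac (σ i) + Measure.dirac (-σ i))

instance sym_fin (σ : Fin m → E) : IsFiniteMeasure (sym σ) := by unfold sym; infer_instance

lemma lint_sym (σ : Fin m → E) (F : E → ℝ≥0∞) :
    ∫⁻ x, F x ∂sym σ = ∑ i, (F (σ i) + F (-σ i)) := by
  simp [sym, lintegral_finsetSum_measure]

lemma sym_univ (σ : Fin m → E) : sym σ univ = 2 * m := by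
  rw [← lintegral_one, lint_sym]
  simp [one_add_one_eq_two, mul_comm]

lemma sym_neg (σ : Fin m → E) : (sym σ).map (fun y => -y) = sym σ := by
  refine Measure.ext_of_lintegral _ fun F hF => ?_
  rw [lintegral_map hF measurable_neg, lint_sym, lint_sym]
  simp [add_comm]

/-- The energy of one jump. -/
noncomputable def DD (φ : Lp ℂ 2 μ) (y : E) : ℝ := (⟪φ, φ - tr y φ⟫_ℂ).re

lemma DD_cont (φ : Lp ℂ 2 μ) : Continuous (DD φ) :=
  Complex.continuous_re.comp
    (continuous_const.inner (continuous_const.sub (tr_cont (by norm_num) φ)))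

lemma DD_eq (φ : Lp ℂ 2 μ) (y : E) : DD φ y = ‖φ‖ ^ 2 - (⟪φ, tr y φ⟫_ℂ).re := by
  have := inner_self_eq_norm_sq (𝕜 := ℂ) φ
  rw [RCLike.re_to_complex] at this
  rw [DD, inner_sub_right, Complex.sub_re, this]

lemma DD_bd (φ : Lp ℂ 2 μ) (y : E) : 0 ≤ DD φ y ∧ DD φ y ≤ 2 * ‖φ‖ ^ 2 := by
  have h := (Complex.abs_re_le_norm ⟪φ, tr y φ⟫_ℂ).trans (norm_inner_le_norm φ (tr y φ))
  rw [norm_tr, abs_le] at h
  rw [DD_eq]
  constructor <;> nlinarith [h.1, h.2]

lemma DD_abs (φ : Lp ℂ 2 μ) (y : E) : |DD φ y| ≤ 2 * ‖φ‖ ^ 2 := by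
  rw [abs_of_nonneg (DD_bd φ y).1]; exact (DD_bd φ y).2

lemma DD_int (φ : Lp ℂ 2 μ) (κ : Measure E) [IsFiniteMeasure κ] (x : E) :
    Integrable (fun y => DD φ (x + y)) κ :=
  Integrable.of_bound ((DD_cont φ).comp (continuous_const_add x)).aestronglyMeasurable _
    (.of_forall fun _ => DD_abs φ _)

lemma DD_int0 (φ : Lp ℂ 2 μ) (κ : Measure E) [IsFiniteMeasure κ] : Integrable (DD φ) κ := by
  simpa using DD_int φ κ 0

lemma re_inner_cv (w : Measure E) [IsProbabilityMeasure w] (φ : Lp ℂ 2 μ) :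
    (⟪φ, φ - cv μ w 2 φ⟫_ℂ).re = ∫ y, DD φ y ∂w := by
  have hi : Integrable (fun y => ⟪φ, tr y φ⟫_ℂ) w :=
    Integrable.of_bound (continuous_const.inner (tr_cont (by norm_num) φ)).aestronglyMeasurable
      (‖φ‖ * ‖φ‖) (.of_forall fun y => (norm_inner_le_norm φ _).trans (by rw [norm_tr]))
  have h1 := inner_self_eq_norm_sq (𝕜 := ℂ) φ
  have h2 := integral_re (𝕜 := ℂ) hi
  simp only [RCLike.re_to_complex] at h1 h2
  simp only [DD_eq]
  have h3 : Integrable (fun y => (⟪φ, tr y φ⟫_ℂ).re) w := hi.re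
  rw [inner_sub_right, Complex.sub_re, h1, inner_cv, integral_sub (integrable_const _) h3, ← h2]
  simp

lemma sq_int (φ : Lp ℂ 2 μ) : Integrable (fun x => ‖φ x‖ ^ 2) μ :=
  (memLp_two_iff_integrable_sq_norm (Lp.aestronglyMeasurable φ)).1 (Lp.memLp φ)

lemma sq_eq (φ : Lp ℂ 2 μ) : ‖φ‖ ^ 2 = ∫ x, ‖φ x‖ ^ 2 ∂μ := by
  have h1 := inner_self_eq_norm_sq (𝕜 := ℂ) φ
  rw [← h1, L2.inner_def, ← integral_re (L2.integrable_inner φ φ)]
  simp only [inner_self_eq_norm_sq]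

lemma DD_ge (φ : Lp ℂ 2 μ) (v : E) {g : E → ℝ} {a : ℝ} (hg : Measurable g) (ha : 0 < a)
    (hb : ∀ x, a ≤ g x ∧ g x ≤ 2) :
    Integrable (fun x => ‖φ x‖ ^ 2 * ((g (x - v) + g (x + v)) / (2 * g x))) μ ∧
    ‖φ‖ ^ 2 - ∫ x, ‖φ x‖ ^ 2 * ((g (x - v) + g (x + v)) / (2 * g x)) ∂μ ≤ DD φ v := by
  have hp : ∀ x, 0 < g x := fun x => ha.trans_le (hb x).1
  have hI : ∀ u : E, Integrable (fun x => ‖φ x‖ ^ 2 * (g (x + u) / (2 * g x))) μ := fun u =>
    (sq_int φ).mul_bdd (c := 2 / (2 * a))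
      ((hg.comp (measurable_add_const u)).div (hg.const_mul 2)).aestronglyMeasurable
      (.of_forall fun x => by
        rw [Real.norm_of_nonneg (by have := hp x; have := hp (x + u); positivity)]
        exact div_le_div₀ (by norm_num) (hb _).2 (by positivity) (by linarith [(hb x).1]))
  have hA : Integrable (fun x => ‖φ x‖ ^ 2 * (g (x - v) / (2 * g x))) μ := by
    simpa only [sub_eq_add_neg] using hI (-v)
  have hs : ∀ x, ‖φ x‖ ^ 2 * ((g (x - v) + g (x + v)) / (2 * g x)) =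
      ‖φ x‖ ^ 2 * (g (x - v) / (2 * g x)) + ‖φ x‖ ^ 2 * (g (x + v) / (2 * g x)) := fun x => by
    ring
  simp only [hs]
  refine ⟨hA.add (hI v), ?_⟩
  have hB := (hI v).comp_sub_right v
  rw [DD_eq, integral_add hA (hI v), ← integral_sub_right_eq_self
    (fun x => ‖φ x‖ ^ 2 * (g (x + v) / (2 * g x))) v, ← integral_add hA hB]
  refine sub_le_sub_left ?_ _
  have h1 := integral_re (𝕜 := ℂ) (L2.integrable_inner (𝕜 := ℂ) φ (tr v φ))
  simp only [RCLike.re_to_complex] at h1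
  rw [L2.inner_def, ← h1]
  refine integral_mono_ae (L2.integrable_inner (𝕜 := ℂ) φ (tr v φ)).re (hA.add hB) ?_
  filter_upwards [tr_coe v φ] with x hx
  rw [hx, sub_add_cancel]
  refine ((Complex.re_le_norm _).trans (norm_inner_le_norm _ _)).trans ?_
  have h2 := hp x
  have h3 := hp (x - v)
  rw [← sub_nonneg]
  have h4 : ‖φ x‖ ^ 2 * (g (x - v) / (2 * g x)) + ‖φ (x - v)‖ ^ 2 * (g x / (2 * g (x - v))) -
      ‖φ x‖ * ‖φ (x - v)‖ =
      (‖φ x‖ * g (x - v) - ‖φ (x - v)‖ * g x) ^ 2 / (2 * g x * g (x - v)) := by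
    field_simp
    ring
  rw [h4]
  positivity

lemma lint_sq (φ : Lp ℂ 2 μ) (R : Set E) :
    ∫⁻ x in R, ‖φ x‖ₑ ^ 2 ∂μ = ENNReal.ofReal (∫ x in R, ‖φ x‖ ^ 2 ∂μ) := by
  rw [ofReal_integral_eq_lintegral_ofReal (sq_int φ).integrableOn
    (.of_forall fun x => by positivity)]
  exact lintegral_congr fun x => by rw [ENNReal.ofReal_pow (norm_nonneg _), ofReal_norm]

lemma level_form (φ : Lp ℂ 2 μ) (σ : Fin m → E) {g : E → ℝ} {a e : ℝ} (hg : Measurable g)
    (ha : 0 < a) (he : 0 ≤ e) (hb : ∀ x, a ≤ g x ∧ g x ≤ 2) {R : Set E} (hR : MeasurableSet R)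
    (h : ∀ x, ∑ i, (g (x - σ i) + g (x + σ i)) ≤
      2 * m * g x * (1 + e - R.indicator (fun _ => 2⁻¹) x)) :
    m * ∫⁻ x in R, ‖φ x‖ₑ ^ 2 ∂μ ≤ ∫⁻ y, ENNReal.ofReal (DD φ y) ∂sym σ +
      ENNReal.ofReal (2 * m * e) * ∫⁻ x, ‖φ x‖ₑ ^ 2 ∂μ := by
  have hp : ∀ x, 0 < g x := fun x => ha.trans_le (hb x).1
  have h1 : ∀ i, 2 * (‖φ‖ ^ 2 - ∫ x, ‖φ x‖ ^ 2 * ((g (x - σ i) + g (x + σ i)) / (2 * g x)) ∂μ) ≤
      DD φ (σ i) + DD φ (-σ i) := fun i => by
    have h2 := (DD_ge φ (σ i) hg ha hb).2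
    have h3 := (DD_ge φ (-σ i) hg ha hb).2
    simp only [sub_neg_eq_add, ← sub_eq_add_neg, add_comm (g (_ + σ i))] at h3
    linarith
  have h4 := Finset.sum_le_sum fun i (_ : i ∈ Finset.univ) => h1 i
  rw [← Finset.mul_sum, Finset.sum_sub_distrib,
    ← integral_finsetSum _ fun i _ => (DD_ge φ (σ i) hg ha hb).1] at h4
  have h5 : ∫ x, ∑ i, ‖φ x‖ ^ 2 * ((g (x - σ i) + g (x + σ i)) / (2 * g x)) ∂μ ≤
      ∫ x, (m * (1 + e) * ‖φ x‖ ^ 2 - m * 2⁻¹ * R.indicator (fun x => ‖φ x‖ ^ 2) x) ∂μ := by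
    refine integral_mono (integrable_finsetSum _ fun i _ => (DD_ge φ (σ i) hg ha hb).1)
      (((sq_int φ).const_mul _).sub (((sq_int φ).indicator hR).const_mul _)) fun x => ?_
    dsimp only
    rw [← Finset.mul_sum, ← Finset.sum_div]
    have h6 := (div_le_iff₀' (mul_pos two_pos (hp x))).2
      (show ∑ i, (g (x - σ i) + g (x + σ i)) ≤
        2 * g x * (m * (1 + e - R.indicator (fun _ => 2⁻¹) x)) by linarith [h x])
    refine (mul_le_mul_of_nonneg_left h6 (by positivity)).trans (le_of_eq ?_)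
    by_cases hx : x ∈ R <;> simp [hx] <;> ring
  rw [integral_sub ((sq_int φ).const_mul _) (((sq_int φ).indicator hR).const_mul _),
    integral_const_mul, integral_const_mul, integral_indicator hR, ← sq_eq] at h5
  simp only [Finset.sum_const, Finset.card_univ, Fintype.card_fin, nsmul_eq_mul] at h4
  have h7 := lint_sq φ univ
  rw [Measure.restrict_univ, ← sq_eq] at h7
  have h8 : ∑ i, (ENNReal.ofReal (DD φ (σ i)) + ENNReal.ofReal (DD φ (-σ i))) =
      ENNReal.ofReal (∑ i, (DD φ (σ i) + DD φ (-σ i))) := by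
    rw [ENNReal.ofReal_sum_of_nonneg fun i _ => add_nonneg (DD_bd φ _).1 (DD_bd φ _).1]
    exact Finset.sum_congr rfl fun i _ => (ENNReal.ofReal_add (DD_bd φ _).1 (DD_bd φ _).1).symm
  rw [lint_sq, h7, lint_sym, h8, ← ENNReal.ofReal_natCast,
    ← ENNReal.ofReal_mul (by positivity), ← ENNReal.ofReal_mul (by positivity)]
  refine le_trans (ENNReal.ofReal_le_ofReal ?_) (ENNReal.ofReal_add
    (Finset.sum_nonneg fun i _ => add_nonneg (DD_bd φ _).1 (DD_bd φ _).1) (by positivity)).le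
  nlinarith

variable {ν : ℕ → Measure E} [∀ i, IsFiniteMeasure (ν i)]

lemma form_ge (h : mom ν ≠ ∞) (F : Finset ℕ) (φ : Lp ℂ 2 μ) :
    ∑ i ∈ F, ∫⁻ y, ENNReal.ofReal (DD φ y) ∂ν i ≤ form (UU μ (fun t => MM (sc t ν)) 2) φ := by
  rw [← lintegral_finsetSum_measure]
  set κ := ∑ i ∈ F, ν i with hκ
  have hD : Measurable fun y => ENNReal.ofReal (DD φ y) := (DD_cont φ).measurable.ennreal_ofReal
  let M : ℝ≥0 → Measure E := fun t => MM (cut F (sc t ν))
  let H : ℝ≥0 → E → ℝ := fun t x => ∫ y, DD φ (x + y) ∂M t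
  have hH0 : ∀ t x, 0 ≤ H t x := fun t x => integral_nonneg fun y => (DD_bd φ _).1
  have hHm : ∀ t, AEStronglyMeasurable (H t) κ := fun t =>
    ((DD_cont φ).comp continuous_add).stronglyMeasurable.integral_prod_right'.aestronglyMeasurable
  have hHb : ∀ t x, ‖H t x‖ ≤ 2 * ‖φ‖ ^ 2 := fun t x => by
    simpa using norm_integral_le_of_norm_le_const (μ := M t) (f := fun y => DD φ (x + y))
      (.of_forall fun y => DD_abs φ _)
  have h1 : Tendsto (fun t => ∫ x, H t x ∂κ) (𝓝 0) (𝓝 (∫ x, DD φ x ∂κ)) :=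
    tendsto_integral_filter_of_dominated_convergence (fun _ => 2 * ‖φ‖ ^ 2) (.of_forall hHm)
      (.of_forall fun t => .of_forall (hHb t)) (integrable_const _) (.of_forall fun x => by
        simpa using tendsto_dirac (κ := M)
          (tail_tendsto h fun t => (mom_cut F).trans (mom_sc t).le)
          ((DD_cont φ).comp (continuous_const_add x)) fun y => DD_abs φ (x + y))
  have h2 : Tendsto (fun t : ℝ≥0 => Real.exp (-(t * κ.real univ))) (𝓝 0) (𝓝 1) := by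
    have : Continuous fun t : ℝ≥0 => Real.exp (-(t * κ.real univ)) := by fun_prop
    simpa using this.tendsto 0
  have h3 := (ENNReal.continuous_ofReal.tendsto _).comp (h2.mul h1)
  rw [one_mul, ofReal_integral_eq_lintegral_ofReal (DD_int0 φ κ)
    (.of_forall fun y => (DD_bd φ y).1)] at h3
  refine le_of_tendsto (h3.mono_left (nhdsWithin_le_nhds (s := Ioi 0))) ?_
  filter_upwards [self_mem_nhdsWithin] with t ht
  have ht0 : (0 : ℝ) < t := NNReal.coe_pos.2 ht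
  refine le_trans ?_ (le_iSup₂_of_le t ht le_rfl)
  have h4 : ∑ i ∈ F, sc t ν i = t • κ := by rw [hκ, Finset.smul_sum]; rfl
  have h5 : ENNReal.ofReal (Real.exp (-(t * κ.real univ))) *
      (t * ENNReal.ofReal (∫ x, H t x ∂κ)) ≤ ∫⁻ y, ENNReal.ofReal (DD φ y) ∂MM (sc t ν) := by
    rw [MM_split (mom_sc_ne h t) F, Measure.lintegral_conv hD]
    refine le_trans (le_of_eq ?_) (cp_ge _)
    rw [h4, measureReal_nnreal_smul_apply, lintegral_smul_measure,
      ofReal_integral_eq_lintegral_ofReal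
        (Integrable.of_bound (hHm t) _ (.of_forall (hHb t))) (.of_forall (hH0 t))]
    congr 2
    exact lintegral_congr fun x => ofReal_integral_eq_lintegral_ofReal (DD_int φ _ x)
      (.of_forall fun y => (DD_bd φ _).1)
  show _ ≤ ENNReal.ofReal ((t : ℝ)⁻¹ * (⟪φ, φ - cv μ (MM (sc t ν)) 2 φ⟫_ℂ).re)
  rw [re_inner_cv, ENNReal.ofReal_mul (by positivity),
    ofReal_integral_eq_lintegral_ofReal (DD_int0 φ _) (.of_forall fun y => (DD_bd φ y).1)]
  refine le_trans (le_of_eq ?_) (mul_le_mul_right h5 _)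
  rw [Function.comp, ENNReal.ofReal_mul (Real.exp_pos _).le, mul_left_comm, ← mul_assoc _ (t : ℝ≥0∞),
    ENNReal.ofReal_inv_of_pos ht0, ENNReal.ofReal_coe_nnreal,
    ENNReal.inv_mul_cancel (by simpa using ht.ne') ENNReal.coe_ne_top, one_mul]

end Pool.Agent.Lib.MP_62a15f_an.Cv
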