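import Pool.Agent.Lib.MP_62a15f_an.Defs

/-! The resolvent of a strongly continuous contraction semigroup as a Laplace transform. -/

open MeasureTheory Filter Topology Set
open scoped ENNReal NNReal

set_option linter.unusedSectionVars false

namespace Pool.Agent.Lib.MP_62a15f_an.Cv

variable {B : Type} [NormedAddCommGroup B] [NormedSpace ℂ B] [NormedSpace ℝ B]
  [IsScalarTower ℝ ℂ B] [CompleteSpace B] {U : ℝ≥0 → Op B} {l : ℝ}

/-- The integrand of the Laplace transform. -/
noncomputable def lap (U : ℝ≥0 → Op B) (l : ℝ) (h : B) (t : ℝ) : B :=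
  Real.exp (-l * t) • U t.toNNReal h

/-- The Laplace transform of the orbit. -/
noncomputable def res (U : ℝ≥0 → Op B) (l : ℝ) (h : B) : B := ∫ t in Ioi (0 : ℝ), lap U l h t

lemma coe_smul' (r : ℝ) (x : B) : (r : ℂ) • x = r • x := algebraMap_smul ℂ r x

lemma lap_cont (hc : StronglyContinuous U) (l : ℝ) (h : B) : Continuous (lap U l h) :=
  (by fun_prop : Continuous fun t : ℝ => Real.exp (-l * t)).smul
    ((hc h).comp continuous_real_toNNReal)

lemma lap_int (hc : StronglyContinuous U) (hk : Contractive U) (hl : 0 < l) (h : B) :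
    IntegrableOn (lap U l h) (Ioi 0) := by
  refine ((exp_neg_integrableOn_Ioi 0 hl).mul_const ‖h‖).mono'
    (lap_cont hc l h).aestronglyMeasurable (.of_forall fun t => ?_)
  rw [lap, norm_smul, Real.norm_of_nonneg (Real.exp_pos _).le]
  exact mul_le_mul_of_nonneg_left (hk _ h) (Real.exp_pos _).le

lemma res_add (hc : StronglyContinuous U) (hk : Contractive U) (hl : 0 < l) (g h : B) :
    res U l (g + h) = res U l g + res U l h := by
  rw [res, res, res, ← integral_add (lap_int hc hk hl g) (lap_int hc hk hl h)]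
  simp only [lap, map_add, smul_add]

lemma res_smul (a : ℂ) (h : B) : res U l (a • h) = a • res U l h := by
  rw [res, res, ← integral_smul]
  simp only [lap, map_smul, smul_comm a]

lemma res_shift (hs : SemigroupLaw U) (hc : StronglyContinuous U) (hk : Contractive U)
    (hl : 0 < l) (h : B) (s : ℝ≥0) :
    U s (res U l h) = Real.exp (l * s) • (res U l h - ∫ t in (0 : ℝ)..s, lap U l h t) := by
  have hi := lap_int hc hk hl h
  have h1 := intervalIntegral.integral_interval_add_Ioi hi
    (hi.mono_set (Ioi_subset_Ioi s.2))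
  have h2 := (measurePreserving_add_left volume (s : ℝ)).setIntegral_preimage_emb
    (measurableEmbedding_addLeft (s : ℝ)) (lap U l h) (Ioi s)
  rw [preimage_const_add_Ioi, sub_self] at h2
  have h3 : res U l h - ∫ t in (0 : ℝ)..s, lap U l h t = ∫ t in Ioi (s : ℝ), lap U l h t :=
    sub_eq_of_eq_add' h1.symm
  rw [h3, ← h2, res, ← (U s).integral_comp_comm hi, ← integral_smul]
  refine setIntegral_congr_fun measurableSet_Ioi fun t ht => ?_
  have h4 : Real.toNNReal (s + t) = s + t.toNNReal := by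
    rw [Real.toNNReal_add s.coe_nonneg (le_of_lt ht), Real.toNNReal_coe]
  have h5 : U (s + t.toNNReal) h = U s (U t.toNNReal h) := (hs h).2 s t.toNNReal
  simp only [lap, h4, h5, smul_smul, ← Real.exp_add, ContinuousLinearMap.map_smul_of_tower]
  congr 2
  ring

lemma res_gen (hs : SemigroupLaw U) (hc : StronglyContinuous U) (hk : Contractive U)
    (hl : 0 < l) (h : B) : IsShiftedGen U l (res U l h) h := by
  have hF := lap_cont hc l h
  have h0 : lap U l h 0 = h := by
    have : U 0 h = h := (hs h).1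
    simp [lap, this]
  have h1 : HasDerivAt (fun s : ℝ => ∫ t in (0 : ℝ)..s, lap U l h t) h 0 := by
    have := (hF.integral_hasStrictDerivAt 0 0).hasDerivAt
    rwa [h0] at this
  have h2 : HasDerivAt (fun s : ℝ => Real.exp (l * s)) l 0 := by
    simpa using ((hasDerivAt_id (0 : ℝ)).const_mul l).exp
  have h3 := h2.smul (h1.const_sub (res U l h))
  have h4 := hasDerivAt_iff_tendsto_slope_zero.1 h3
  have h5 : Tendsto (fun t : ℝ≥0 => (t : ℝ)) (𝓝[>] 0) (𝓝[≠] 0) := by
    refine tendsto_nhdsWithin_iff.2 ⟨?_, ?_⟩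
    · exact (NNReal.continuous_coe.tendsto 0).mono_left nhdsWithin_le_nhds
    · filter_upwards [self_mem_nhdsWithin] with t ht
      exact (NNReal.coe_pos.2 ht).ne'
  have h6 := h4.comp h5
  unfold IsShiftedGen IsGen
  convert h6 using 2
  · simp only [Function.comp, Op.at, res_shift hs hc hk hl h, zero_add, Pi.smul_apply',
      mul_zero, Real.exp_zero, intervalIntegral.integral_same, sub_zero, one_smul]
    rw [← Complex.ofReal_inv, coe_smul']
  · simp [sub_eq_neg_add, coe_smul', -Complex.coe_smul]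

lemma gen_unique (hk : Contractive U) (hl : 0 < l) {f g h : B} (hf : IsShiftedGen U l f h)
    (hg : IsShiftedGen U l g h) : f = g := by
  have h1 := hf.sub hg
  obtain ⟨d, hd⟩ : ∃ d, d = f - g := ⟨_, rfl⟩
  have h2 : Tendsto (fun t : ℝ≥0 => ((t : ℝ) : ℂ)⁻¹ • (U t d - d)) (𝓝[>] 0) (𝓝 ((l : ℂ) • d)) := by
    convert h1 using 2
    · simp only [Op.at, hd, map_sub, smul_sub]
      abel
    · rw [hd, smul_sub]; abel
  by_contra hne
  have hd0 : 0 < ‖d‖ := norm_pos_iff.2 (hd ▸ sub_ne_zero.2 hne)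
  have h3 := (tendsto_iff_norm_sub_tendsto_zero.1 h2).eventually
    (gt_mem_nhds (mul_pos hl hd0))
  obtain ⟨t, ht, ht0⟩ := (h3.and self_mem_nhdsWithin).exists
  have ht1 : (0 : ℝ) < t := NNReal.coe_pos.2 ht0
  have htc : ((t : ℝ) : ℂ) ≠ 0 := by exact_mod_cast ht1.ne'
  have h4 : ((1 + t * l : ℝ) : ℂ) • d =
      U t d - ((t : ℝ) : ℂ) • (((t : ℝ) : ℂ)⁻¹ • (U t d - d) - (l : ℂ) • d) := by
    rw [smul_sub, smul_smul, mul_inv_cancel₀ htc, one_smul, smul_smul]
    push_cast
    rw [add_smul, one_smul]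
    abel
  have h5 := norm_sub_le (U t d) (((t : ℝ) : ℂ) • (((t : ℝ) : ℂ)⁻¹ • (U t d - d) - (l : ℂ) • d))
  rw [← h4, norm_smul, norm_smul, Complex.norm_real, Complex.norm_real,
    Real.norm_of_nonneg (by positivity), Real.norm_of_nonneg ht1.le] at h5
  have h6 : ‖U t d‖ ≤ ‖d‖ := hk t d
  nlinarith [mul_lt_mul_of_pos_left ht ht1]

end Pool.Agent.Lib.MP_62a15f_an.Cv
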