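import Pool.Agent.Lib.MP_62a15f_an.Cv.Sg
import Pool.Agent.Lib.MP_62a15f_an.Cv.Res

/-! The resolvent on `L¹`: set estimates and domination. -/

open MeasureTheory Filter Topology Set
open scoped ENNReal NNReal

set_option linter.unusedSectionVars false

namespace Pool.Agent.Lib.MP_62a15f_an.Cv

variable {E : Type} [NormedAddCommGroup E] [InnerProductSpace ℝ E] [FiniteDimensional ℝ E]
  [MeasurableSpace E] [BorelSpace E] {μ : Measure E} [μ.IsAddHaarMeasure]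
  {w : ℝ≥0 → Measure E} [∀ t, IsProbabilityMeasure (w t)] {l l' : ℝ}

lemma enorm_L1 {ν : Measure E} (f : Lp ℂ 1 ν) : ‖f‖ₑ = ∫⁻ x, ‖f x‖ₑ ∂ν := by
  rw [Lp.enorm_def, eLpNorm_one_eq_lintegral_enorm]

lemma enorm_restr (s : Set E) (f : Lp ℂ 1 μ) :
    ‖LpToLpRestrictCLM E ℂ ℝ μ 1 s f‖ₑ = ∫⁻ x in s, ‖f x‖ₑ ∂μ := by
  rw [enorm_L1]
  exact lintegral_congr_ae ((LpToLpRestrictCLM_coeFn ℝ s f).mono fun x hx => by simp only [hx])

lemma res_set_le (hw : IsConvSemigroup w) (hl : 0 < l) (s : Set E) (h : Lp ℂ 1 μ) :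
    ∫⁻ x in s, ‖res (UU μ w 1) l h x‖ₑ ∂μ ≤ ∫⁻ t in Ioi (0 : ℝ),
      ENNReal.ofReal (Real.exp (-l * t)) * ∫⁻ x in s, ‖cv μ (w t.toNNReal) 1 h x‖ₑ ∂μ := by
  rw [← enorm_restr, res, ← ContinuousLinearMap.integral_comp_comm _
    (lap_int (UU_cont hw (by norm_num)) UU_contr hl h)]
  refine (enorm_integral_le_lintegral_enorm _).trans (le_of_eq (lintegral_congr fun t => ?_))
  rw [lap, map_smul, enorm_smul, enorm_restr, Real.enorm_of_nonneg (Real.exp_pos _).le]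
  rfl

variable (μ) in
/-- The integral of the real part over a set. -/
noncomputable def lam (s : Set E) : Lp ℂ 1 μ →L[ℝ] ℝ :=
  Complex.reCLM ∘L (L1.integralCLM (μ := μ.restrict s)) ∘L LpToLpRestrictCLM E ℂ ℝ μ 1 s

lemma lam_apply (s : Set E) (g : Lp ℂ 1 μ) : lam μ s g = ∫ x in s, (g x).re ∂μ := by
  have h1 := integral_re (𝕜 := ℂ) (L1.integrable_coeFn g).integrableOn (μ := μ.restrict s)
  simp only [RCLike.re_to_complex] at h1
  rw [h1, ← integral_congr_ae (LpToLpRestrictCLM_coeFn ℝ s g), ← L1.integral_eq_integral,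
    L1.integral_eq]
  rfl

lemma lam_ge (s : Set E) {f g : Lp ℂ 1 μ} (h : Dom μ f g) :
    ∫⁻ x in s, ‖f x‖ₑ ∂μ ≤ ENNReal.ofReal (lam μ s g) := by
  rw [← ofReal_integral_norm_eq_lintegral_enorm (L1.integrable_coeFn f).integrableOn, lam_apply]
  exact ENNReal.ofReal_le_ofReal (integral_mono_ae (L1.integrable_coeFn f).integrableOn.norm
    (L1.integrable_coeFn g).integrableOn.re (ae_restrict_of_ae h))

lemma lam_nonneg (s : Set E) {f g : Lp ℂ 1 μ} (h : Dom μ f g) : 0 ≤ lam μ s g := by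
  rw [lam_apply]
  exact integral_nonneg_of_ae (ae_restrict_of_ae (h.mono fun x hx => (norm_nonneg _).trans hx))

lemma lam_le (s : Set E) (g : Lp ℂ 1 μ) :
    ENNReal.ofReal (lam μ s g) ≤ ∫⁻ x in s, ‖g x‖ₑ ∂μ := by
  rw [← ofReal_integral_norm_eq_lintegral_enorm (L1.integrable_coeFn g).integrableOn, lam_apply]
  exact ENNReal.ofReal_le_ofReal (integral_mono (L1.integrable_coeFn g).integrableOn.re
    (L1.integrable_coeFn g).integrableOn.norm fun x => Complex.re_le_norm _)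

lemma lam_res (hw : IsConvSemigroup w) (hl : 0 < l) (s : Set E) {f g : Lp ℂ 1 μ}
    (h : Dom μ f g) : 0 ≤ lam μ s (res (UU μ w 1) l g) ∧ ∫⁻ t in Ioi (0 : ℝ),
      ENNReal.ofReal (Real.exp (-l * t)) * ∫⁻ x in s, ‖cv μ (w t.toNNReal) 1 f x‖ₑ ∂μ ≤
      ENNReal.ofReal (lam μ s (res (UU μ w 1) l g)) := by
  have hi := lap_int (UU_cont (μ := μ) (p := 1) hw (by norm_num)) UU_contr hl g
  have h0 : ∀ t, lam μ s (lap (UU μ w 1) l g t) =
      Real.exp (-l * t) * lam μ s (cv μ (w t.toNNReal) 1 g) := fun t => by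
    rw [lap, map_smul]; rfl
  have h1 : ∀ t, 0 ≤ lam μ s (lap (UU μ w 1) l g t) := fun t => by
    rw [h0]
    exact mul_nonneg (Real.exp_pos _).le (lam_nonneg s (cv_dom _ h))
  rw [res, ← ContinuousLinearMap.integral_comp_comm _ hi]
  refine ⟨integral_nonneg h1, ?_⟩
  rw [ofReal_integral_eq_lintegral_ofReal ((lam μ s).integrable_comp hi) (.of_forall h1)]
  refine lintegral_mono fun t => ?_
  rw [h0, ENNReal.ofReal_mul (Real.exp_pos _).le]
  exact mul_le_mul_right (lam_ge s (cv_dom _ h)) _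

lemma res_dom (hw : IsConvSemigroup w) (hl : 0 < l) (hl' : l ≤ l') {f g : Lp ℂ 1 μ}
    (h : Dom μ f g) :
    Dom μ (res (UU μ w 1) l' f : Lp ℂ 1 μ) (res (UU μ w 1) l g : Lp ℂ 1 μ) := by
  refine ae_le_of_forall_setIntegral_le (L1.integrable_coeFn _).norm
    (L1.integrable_coeFn (res (UU μ w 1) l g)).re fun s _ _ => ?_
  obtain ⟨h1, h2⟩ := lam_res hw hl s h
  have h3 := lam_apply s (res (UU μ w 1) l g)
  rw [← h3, ← ENNReal.ofReal_le_ofReal_iff h1,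
    ofReal_integral_norm_eq_lintegral_enorm (L1.integrable_coeFn _).integrableOn]
  refine (res_set_le hw (hl.trans_le hl') s f).trans (le_trans ?_ h2)
  refine setLIntegral_mono' measurableSet_Ioi fun t ht => ?_
  refine mul_le_mul_left (ENNReal.ofReal_le_ofReal (Real.exp_le_exp.2 ?_)) _
  have : (0 : ℝ) < t := ht
  nlinarith

lemma res_set_ge (hw : IsConvSemigroup w) (hl : 0 < l) {s s' : Set E} (hs : MeasurableSet s)
    (hs' : MeasurableSet s') {T : ℝ} (hT : l * T ≤ 1)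
    (hm : ∀ t : ℝ≥0, (t : ℝ) ≤ T → ∀ z ∈ s, 2⁻¹ ≤ w t {y | z + y ∈ s'})
    {f : Lp ℂ 1 μ} (hf : Dom μ f f) :
    ENNReal.ofReal (T / 6) * ∫⁻ x in s, ‖f x‖ₑ ∂μ ≤ ∫⁻ x in s', ‖res (UU μ w 1) l f x‖ₑ ∂μ := by
  refine le_trans ?_ ((lam_res hw hl s' hf).2.trans (lam_le s' _))
  refine le_trans ?_ (lintegral_mono_set (show Ioc (0 : ℝ) T ⊆ Ioi 0 from Ioc_subset_Ioi_self))
  have h1 : ∀ t ∈ Ioc (0 : ℝ) T, ENNReal.ofReal 6⁻¹ * ∫⁻ x in s, ‖f x‖ₑ ∂μ ≤
      ENNReal.ofReal (Real.exp (-l * t)) * ∫⁻ x in s', ‖cv μ (w t.toNNReal) 1 f x‖ₑ ∂μ := by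
    intro t ht
    have h2 : (3 : ℝ)⁻¹ ≤ Real.exp (-l * t) := by
      have h3 : Real.exp (-1) ≤ Real.exp (-l * t) := Real.exp_le_exp.2 (by nlinarith [ht.2])
      refine le_trans ?_ h3
      rw [Real.exp_neg]
      exact inv_anti₀ (Real.exp_pos _) (by linarith [Real.exp_one_lt_d9])
    have h4 : 2⁻¹ * ∫⁻ x in s, ‖f x‖ₑ ∂μ ≤ ∫⁻ x in s', ‖cv μ (w t.toNNReal) 1 f x‖ₑ ∂μ := by
      rw [cv_set_eq _ s' hs' f hf, ← lintegral_const_mul _ (Lp.stronglyMeasurable f).enorm]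
      refine le_trans (setLIntegral_mono' hs fun z hz => ?_) (setLIntegral_le_lintegral s _)
      rw [mul_comm]
      exact mul_le_mul_right (hm _ (by rw [Real.coe_toNNReal _ ht.1.le]; exact ht.2) z hz) _
    have h5 : ENNReal.ofReal 6⁻¹ = ENNReal.ofReal 3⁻¹ * 2⁻¹ := by
      rw [show (2⁻¹ : ℝ≥0∞) = ENNReal.ofReal 2⁻¹ by simp [ENNReal.ofReal_inv_of_pos],
        ← ENNReal.ofReal_mul (by norm_num)]
      norm_num
    rw [h5, mul_assoc]
    exact mul_le_mul' (ENNReal.ofReal_le_ofReal h2) h4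
  refine le_trans (le_of_eq ?_) (setLIntegral_mono' measurableSet_Ioc h1)
  rw [setLIntegral_const, Real.volume_Ioc, sub_zero, div_eq_mul_inv,
    ENNReal.ofReal_mul' (by norm_num)]
  ring

variable {V : E → ℝ}

lemma int_V (hV : Measurable V) (hV0 : ∀ x, 0 ≤ V x) {f : Lp ℂ 1 μ}
    (h : ∫⁻ x, ENNReal.ofReal (V x) * ‖f x‖ₑ ∂μ < ∞) :
    Integrable (fun x => (V x : ℂ) * f x) μ :=
  ⟨(Complex.measurable_ofReal.comp hV).aestronglyMeasurable.mul (Lp.aestronglyMeasurable f), by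
    refine lt_of_eq_of_lt (lintegral_congr fun x => ?_) h
    rw [enorm_mul, ← ofReal_norm, Complex.norm_real, Real.norm_of_nonneg (hV0 x)]⟩

lemma exists_A (hw : IsConvSemigroup w) (hl : 0 < l) (hV : Measurable V) (hV0 : ∀ x, 0 ≤ V x)
    {C : ℝ≥0} (hC : ∀ h : Lp ℂ 1 μ,
      ∫⁻ x, ENNReal.ofReal (V x) * ‖res (UU μ w 1) l h x‖ₑ ∂μ ≤ C * ‖h‖ₑ) :
    ∃ A : Lp ℂ 1 μ →L[ℂ] Lp ℂ 1 μ,
      ∀ h, A h =ᵐ[μ] fun x => (V x : ℂ) * res (UU μ w 1) l h x := by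
  have hi : ∀ h : Lp ℂ 1 μ, Integrable (fun x => (V x : ℂ) * res (UU μ w 1) l h x) μ := fun h =>
    int_V hV hV0 ((hC h).trans_lt (ENNReal.mul_lt_top ENNReal.coe_lt_top enorm_lt_top))
  refine ⟨LinearMap.mkContinuous
    { toFun := fun h => (hi h).toL1 _
      map_add' := fun f g => ?_
      map_smul' := fun a f => ?_ } C fun h => ?_, fun h => (hi h).coeFn_toL1⟩
  · refine Lp.ext ?_
    filter_upwards [(hi (f + g)).coeFn_toL1, (hi f).coeFn_toL1, (hi g).coeFn_toL1,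
      Lp.coeFn_add ((hi f).toL1 _) ((hi g).toL1 _),
      Lp.coeFn_add (res (UU μ w 1) l f) (res (UU μ w 1) l g)] with x h1 h2 h3 h4 h5
    rw [h1, h4, Pi.add_apply, h2, h3, res_add (UU_cont hw (by norm_num)) UU_contr hl, h5,
      Pi.add_apply, mul_add]
  · refine Lp.ext ?_
    filter_upwards [(hi (a • f)).coeFn_toL1, (hi f).coeFn_toL1,
      Lp.coeFn_smul a ((hi f).toL1 _), Lp.coeFn_smul a (res (UU μ w 1) l f)] with x h1 h2 h4 h5
    rw [RingHom.id_apply, h1, h4, Pi.smul_apply, h2, res_smul, h5, Pi.smul_apply, smul_eq_mul,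
      smul_eq_mul]
    ring
  · simp only [LinearMap.coe_mk, AddHom.coe_mk]
    rw [← ENNReal.ofReal_le_ofReal_iff (by positivity), ofReal_norm,
      ENNReal.ofReal_mul C.coe_nonneg, ofReal_norm, ENNReal.ofReal_coe_nnreal, enorm_L1]
    refine le_trans (le_of_eq (lintegral_congr_ae ?_)) (hC h)
    filter_upwards [(hi h).coeFn_toL1] with x hx
    rw [hx, enorm_mul, ← ofReal_norm, Complex.norm_real, Real.norm_of_nonneg (hV0 x)]

lemma A_dom (hw : IsConvSemigroup w) (hl : 0 < l) (hl' : l ≤ l') (hV0 : ∀ x, 0 ≤ V x)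
    {A A' : Lp ℂ 1 μ →L[ℂ] Lp ℂ 1 μ}
    (hA : ∀ h, A h =ᵐ[μ] fun x => (V x : ℂ) * res (UU μ w 1) l h x)
    (hA' : ∀ h, A' h =ᵐ[μ] fun x => (V x : ℂ) * res (UU μ w 1) l' h x) {f g : Lp ℂ 1 μ}
    (h : Dom μ f g) (n : ℕ) : Dom μ ((A' ^ n) f) ((A ^ n) g) := by
  induction n with
  | zero => exact h
  | succ n ih =>
    rw [pow_succ', pow_succ', mul_apply_eq_comp, mul_apply_eq_comp]
    filter_upwards [hA ((A ^ n) g), hA' ((A' ^ n) f), res_dom hw hl hl' ih] with x h1 h2 h3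
    rw [h1, h2, norm_mul, Complex.norm_real, Real.norm_of_nonneg (hV0 x), Complex.re_ofReal_mul]
    exact mul_le_mul_of_nonneg_left h3 (hV0 x)

lemma A_anti (hw : IsConvSemigroup w) (hl : 0 < l) (hl' : l ≤ l') (hV0 : ∀ x, 0 ≤ V x)
    {A A' : Lp ℂ 1 μ →L[ℂ] Lp ℂ 1 μ}
    (hA : ∀ h, A h =ᵐ[μ] fun x => (V x : ℂ) * res (UU μ w 1) l h x)
    (hA' : ∀ h, A' h =ᵐ[μ] fun x => (V x : ℂ) * res (UU μ w 1) l' h x) :
    spectralRadius ℂ A' ≤ spectralRadius ℂ A := by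
  refine le_of_tendsto_of_tendsto'
    (spectrum.pow_nnnorm_pow_one_div_tendsto_nhds_spectralRadius A')
    (spectrum.pow_nnnorm_pow_one_div_tendsto_nhds_spectralRadius A) fun n => ?_
  refine ENNReal.rpow_le_rpow (ENNReal.coe_le_coe.2 ?_) (by positivity)
  refine ContinuousLinearMap.opNorm_le_bound _ (norm_nonneg _) fun f => ?_
  have hi : Integrable (fun x => ((‖f x‖ : ℝ) : ℂ)) μ := (L1.integrable_coeFn f).norm.ofReal
  have hd : Dom μ f (hi.toL1 _) := hi.coeFn_toL1.mono fun x hx => by rw [hx]; simp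
  have hn : ‖hi.toL1 _‖ = ‖f‖ := by
    rw [L1.norm_eq_integral_norm, L1.norm_eq_integral_norm]
    exact integral_congr_ae (hi.coeFn_toL1.mono fun x hx => by simp only [hx]; simp)
  rw [← hn]
  refine le_trans ?_ ((A ^ n).le_opNorm _)
  rw [L1.norm_eq_integral_norm, L1.norm_eq_integral_norm]
  exact integral_mono_ae (L1.integrable_coeFn _).norm (L1.integrable_coeFn _).norm
    ((A_dom hw hl hl' hV0 hA hA' hd n).mono fun x hx => hx.trans (Complex.re_le_norm _))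

/-- A chain of sets along which the potential operator doubles the mass. -/
def Chain (μ : Measure E) (w : ℝ≥0 → Measure E) (V : E → ℝ) (l : ℝ) (n : ℕ) : Prop :=
  ∃ (W : ℕ → Set E) (c T : ℝ), (∀ j, MeasurableSet (W j)) ∧ μ (W 0) ≠ 0 ∧ μ (W 0) ≠ ∞ ∧
    0 ≤ c ∧ l * T ≤ 1 ∧ 12 ≤ c * T ∧ (∀ j ≤ n, ∀ x ∈ W j, c ≤ V x) ∧
    ∀ j < n, ∀ t : ℝ≥0, (t : ℝ) ≤ T → ∀ z ∈ W j, 2⁻¹ ≤ w t {y | z + y ∈ W (j + 1)}

lemma A_low (hw : IsConvSemigroup w) (hl : 0 < l) (hV0 : ∀ x, 0 ≤ V x)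
    {A : Lp ℂ 1 μ →L[ℂ] Lp ℂ 1 μ}
    (hA : ∀ h, A h =ᵐ[μ] fun x => (V x : ℂ) * res (UU μ w 1) l h x) {n : ℕ}
    (hch : Chain μ w V l n) : (2 : ℝ≥0∞) ^ n ≤ ‖A ^ n‖₊ := by
  obtain ⟨W, c, T, hW, h0, h0', hc, hT, hcT, hWV, hm⟩ := hch
  let f : Lp ℂ 1 μ := indicatorConstLp 1 (hW 0) h0' (1 : ℂ)
  have hf : f =ᵐ[μ] (W 0).indicator fun _ => (1 : ℂ) := indicatorConstLp_coeFn
  have hd : Dom μ f f := hf.mono fun x hx => by
    rw [hx]; by_cases h : x ∈ W 0 <;> simp [h]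
  have hfn : ‖f‖ₑ = μ (W 0) := by
    rw [enorm_L1, ← lintegral_indicator_one (hW 0)]
    exact lintegral_congr_ae (hf.mono fun x hx => by
      simp only [hx]; by_cases h : x ∈ W 0 <;> simp [h])
  have key : ∀ j ≤ n, 2 ^ j * μ (W 0) ≤ ∫⁻ x in W j, ‖(A ^ j) f x‖ₑ ∂μ := by
    intro j hj
    induction j with
    | zero =>
      rw [pow_zero, one_mul, ← setLIntegral_one]
      refine le_of_eq (lintegral_congr_ae ?_)
      filter_upwards [ae_restrict_of_ae hf, ae_restrict_mem (hW 0)] with x h1 h2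
      simp [h1, h2]
    | succ j ih =>
      have h1 := res_set_ge hw hl (hW j) (hW (j + 1)) hT (hm j (by omega))
        (A_dom hw hl le_rfl hV0 hA hA hd j)
      have h2 : ENNReal.ofReal c * ∫⁻ x in W (j + 1), ‖res (UU μ w 1) l ((A ^ j) f) x‖ₑ ∂μ ≤
          ∫⁻ x in W (j + 1), ‖(A ^ (j + 1)) f x‖ₑ ∂μ := by
        rw [← lintegral_const_mul _ (Lp.stronglyMeasurable _).enorm, pow_succ', mul_apply_eq_comp]
        refine lintegral_mono_ae ?_
        filter_upwards [ae_restrict_of_ae (hA ((A ^ j) f)), ae_restrict_mem (hW (j + 1))]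
          with x h1 h2
        rw [h1, enorm_mul, ← ofReal_norm (V x : ℂ), Complex.norm_real,
          Real.norm_of_nonneg (hV0 x)]
        exact mul_le_mul_left (ENNReal.ofReal_le_ofReal (hWV _ hj x h2)) _
      refine le_trans ?_ ((mul_le_mul_right h1 _).trans h2)
      rw [← mul_assoc, ← ENNReal.ofReal_mul hc, pow_succ', mul_assoc]
      refine mul_le_mul' ?_ (ih (by omega))
      rw [← ENNReal.ofReal_ofNat 2]
      exact ENNReal.ofReal_le_ofReal (by linarith)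
  have h3 : 2 ^ n * μ (W 0) ≤ ‖A ^ n‖₊ * μ (W 0) := by
    refine (key n le_rfl).trans ((setLIntegral_le_lintegral _ _).trans ?_)
    rw [← enorm_L1, ← hfn]
    exact (A ^ n).le_opENorm f
  exact (ENNReal.mul_le_mul_iff_left h0 h0').1 h3

theorem pot_main (hw : IsConvSemigroup w) (hV : Measurable V) (hV0 : ∀ x, 0 ≤ V x)
    (HP : ∀ l : ℝ, 0 < l → ∃ C : ℝ≥0, ∀ h : Lp ℂ 1 μ,
      ∫⁻ x, ENNReal.ofReal (V x) * ‖res (UU μ w 1) l h x‖ₑ ∂μ ≤ C * ‖h‖ₑ)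
    (HL : ∀ l : ℝ, 0 < l → ∀ n, Chain μ w V l n) :
    IsGenBounded (UU μ w) V ∧
    ∃ A : ℝ → Op (L μ 1), (∀ l : ℝ, 0 < l → IsPotentialResolvent (UU μ w) V l (A l)) ∧
      ∃ δ : ℝ≥0∞, Tendsto (fun l : ℝ => specRad (A l)) atTop (𝓝 δ) ∧ 1 < δ := by
  have hg : ∀ l : ℝ, 0 < l → ∀ h : Lp ℂ 1 μ,
      IsShiftedGen (UU μ w 1) l (res (UU μ w 1) l h) h := fun l hl h =>
    res_gen (UU_law hw) (UU_cont hw (by norm_num)) UU_contr hl h
  have hE : ∀ l : ℝ, 0 < l → ∃ A : Lp ℂ 1 μ →L[ℂ] Lp ℂ 1 μ,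
      ∀ h, A h =ᵐ[μ] fun x => (V x : ℂ) * res (UU μ w 1) l h x := fun l hl =>
    (HP l hl).elim fun C hC => exists_A hw hl hV hV0 hC
  choose! A hA using hE
  refine ⟨fun f g hfg => ?_, A, fun l hl => ⟨fun h => ⟨_, hg l hl h⟩, fun f h hf => ?_⟩,
    ⨅ l : ℝ, spectralRadius ℂ (A (max l 1)), ?_, ?_⟩
  · have h1 : IsShiftedGen (UU μ w 1) 1 f (((1 : ℝ) : ℂ) • f - g) := by
      unfold IsShiftedGen
      rwa [sub_sub_cancel]
    rw [gen_unique UU_contr one_pos h1 (hg 1 one_pos _)]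
    exact (L1.integrable_coeFn _).congr (hA 1 one_pos _)
  · rw [gen_unique UU_contr hl hf (hg l hl h)]
    exact hA l hl h
  · have h1 : Antitone fun l : ℝ => spectralRadius ℂ (A (max l 1)) := fun a b hab =>
      A_anti hw (lt_max_of_lt_right one_pos) (max_le_max_right 1 hab) hV0
        (hA _ (lt_max_of_lt_right one_pos)) (hA _ (lt_max_of_lt_right one_pos))
    refine (tendsto_atTop_iInf h1).congr' ((eventually_ge_atTop 1).mono fun l hl => ?_)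
    simp only [max_eq_left hl, specRad]
  · refine lt_of_lt_of_le ENNReal.one_lt_two (le_iInf fun l => ?_)
    have hl : 0 < max l 1 := lt_max_of_lt_right one_pos
    refine ge_of_tendsto (spectrum.pow_nnnorm_pow_one_div_tendsto_nhds_spectralRadius _)
      ((eventually_gt_atTop 0).mono fun n hn => ?_)
    have h2 := ENNReal.rpow_le_rpow (A_low hw hl hV0 (hA _ hl) (HL _ hl n))
      (show (0 : ℝ) ≤ 1 / n by positivity)
    rwa [← ENNReal.rpow_natCast, ← ENNReal.rpow_mul, mul_one_div_cancel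
      (by exact_mod_cast hn.ne'), ENNReal.rpow_one] at h2

end Pool.Agent.Lib.MP_62a15f_an.Cv
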