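import Pool.Agent.Lib.MP_62a15f_an.Cv.Par
import Pool.Agent.Lib.MP_62a15f_an.Cv.Pot

/-! The potential and its boundedness relative to the generator. -/

open MeasureTheory Filter Topology Set Metric
open scoped ENNReal NNReal

set_option linter.unusedSectionVars false

namespace Pool.Agent.Lib.MP_62a15f_an.Cv

lemma lint_exp {c : ℝ} (hc : 0 < c) :
    ∫⁻ t in Ioi (0 : ℝ), ENNReal.ofReal (Real.exp (-c * t)) = ENNReal.ofReal c⁻¹ := by
  rw [← ofReal_integral_eq_lintegral_ofReal (exp_neg_integrableOn_Ioi 0 hc)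
    (ae_of_all _ fun t => (Real.exp_pos _).le), integral_exp_mul_Ioi (neg_lt_zero.2 hc)]
  simp

lemma lint_texp {c a : ℝ} (hc : 0 < c) (ha : 0 ≤ a) :
    ∫⁻ t in Ioi (0 : ℝ), ENNReal.ofReal (a * (t * Real.exp (-c * t))) ≤
      ENNReal.ofReal (a * (4 / c ^ 2)) := by
  have h1 : ∀ t : ℝ, ENNReal.ofReal (a * (t * Real.exp (-c * t))) ≤
      ENNReal.ofReal (a * (2 / c)) * ENNReal.ofReal (Real.exp (-(c / 2) * t)) := by
    intro t
    rw [← ENNReal.ofReal_mul (by positivity), mul_assoc]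
    refine ENNReal.ofReal_le_ofReal (mul_le_mul_of_nonneg_left ?_ ha)
    have h2 : t ≤ 2 / c * Real.exp (c / 2 * t) := by
      rw [div_mul_eq_mul_div 2 c, le_div_iff₀ hc]
      linarith [Real.add_one_le_exp (c / 2 * t)]
    have h3 : Real.exp (-(c / 2) * t) = Real.exp (c / 2 * t) * Real.exp (-c * t) := by
      rw [← Real.exp_add]; congr 1; ring
    rw [h3, ← mul_assoc]
    exact mul_le_mul_of_nonneg_right h2 (Real.exp_pos _).le
  refine (lintegral_mono h1).trans (le_of_eq ?_)
  rw [lintegral_const_mul _ (by fun_prop), lint_exp (half_pos hc),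
    ← ENNReal.ofReal_mul (by positivity)]
  congr 1
  field_simp
  ring

variable {E : Type} [NormedAddCommGroup E] [InnerProductSpace ℝ E] [FiniteDimensional ℝ E]
  [MeasurableSpace E] [BorelSpace E]

lemma cp_add (A B : Measure E) [IsFiniteMeasure A] [IsFiniteMeasure B] :
    cp (A + B) = cp A ∗ cp B :=
  Measure.ext_of_charFun (funext fun ξ => by
    rw [charFun_conv, charFun_cp, charFun_cp, charFun_cp, psi_add, Complex.exp_add])

lemma cp_le' (ν : Measure E) [IsFiniteMeasure ν] {F : E → ℝ≥0∞} (hF : Measurable F) {c : ℝ≥0∞}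
    (h : ∀ y, ∫⁻ x, F (x + y) ∂ν ≤ c) :
    ∫⁻ x, F x ∂cp ν ≤ ENNReal.ofReal (Real.exp (-ν.real univ)) * F 0 + c := by
  refine (cp_le ν hF).trans (add_le_add le_rfl ?_)
  rw [lintegral_lintegral_swap (f := fun x y => F (x + y)) (hF.comp measurable_add).aemeasurable]
  exact (lintegral_mono h).trans (by simp)

lemma MM_take {ν : ℕ → Measure E} [∀ i, IsFiniteMeasure (ν i)] (h : mom ν ≠ ∞) (k : ℕ)
    {κ ρ : Measure E} [IsFiniteMeasure κ] [IsFiniteMeasure ρ] (hk : ν k = κ + ρ) :
    ∃ M : Measure E, IsProbabilityMeasure M ∧ M {y | 1 ≤ ‖y‖} ≤ mom ν ∧ MM ν = M ∗ cp κ := by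
  have hf : ∀ i, IsFiniteMeasure (Function.update ν k ρ i) := fun i => by
    rw [Function.update_apply]; split_ifs <;> infer_instance
  have h1 : mom (Function.update ν k ρ) ≤ mom ν := mom_mono fun i => by
    rw [Function.update_apply]
    split_ifs with hi
    · rw [hi, hk]; exact Measure.le_add_left le_rfl
    · exact le_rfl
  have h2 := ne_top_of_le_ne_top h h1
  have h3 : cut {k} (Function.update ν k ρ) = cut {k} ν := funext fun i => by
    unfold cut
    split_ifs with hi
    · rfl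
    · exact Function.update_of_ne (by simpa using hi) _ _
  refine ⟨MM (Function.update ν k ρ), inferInstance, le_trans ?_ h1, ?_⟩
  · simpa using MM_tail h2 (ε := 1)
  · rw [MM_split h {k}, MM_split h2 {k}, h3, Finset.sum_singleton, Finset.sum_singleton, hk,
      Function.update_self, cp_add, Measure.conv_assoc, Measure.conv_comm]

variable (e : E)

/-- The semigroup. -/
noncomputable abbrev ww : ℝ≥0 → Measure E := fun t => MM (sc t (nu e))

/-- The potential with extended values. -/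
noncomputable def VE (x : E) : ℝ≥0∞ := ∑' k, (192 * rr k : ℝ≥0∞) * (WW e k k).indicator 1 x

/-- The potential. -/
noncomputable def VV (x : E) : ℝ := (VE e x).toReal

lemma meas_WW (k j : ℕ) : MeasurableSet (WW e k j) := meas_Wd _ _ _ _

lemma meas_VV : Measurable (VV e) :=
  (Measurable.tsum fun k =>
    (measurable_one.indicator (meas_WW e k k)).const_mul _).ennreal_toReal

lemma lint_VV {μ : Measure E} {F : E → ℝ≥0∞} (hF : Measurable F) :
    ∫⁻ x, ENNReal.ofReal (VV e x) * F x ∂μ ≤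
      ∑' k, (192 * rr k : ℝ≥0∞) * ∫⁻ x in WW e k k, F x ∂μ := by
  refine (lintegral_mono fun x => mul_le_mul_left ENNReal.ofReal_toReal_le _).trans (le_of_eq ?_)
  simp only [VE, ← ENNReal.tsum_mul_right]
  rw [lintegral_tsum fun k => (((measurable_one.indicator (meas_WW e k k)).const_mul _).fun_mul
    hF).aemeasurable]
  refine tsum_congr fun k => ?_
  rw [← lintegral_indicator (meas_WW e k k), ← lintegral_const_mul _ (hF.indicator (meas_WW e k k))]
  refine lintegral_congr fun x => ?_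
  by_cases hx : x ∈ WW e k k <;> simp [hx]

variable {e} (he : ‖e‖ = 1)
include he

lemma WW_one (k : ℕ) : WW e k k ⊆ ball (xx e k) 1 :=
  (WW_ball he k).trans (ball_subset_ball (uu_RR k))

lemma VV_eq {k : ℕ} {x : E} (hx : x ∈ WW e k k) : VV e x = 192 * rr k := by
  rw [VV, VE, tsum_eq_single k fun j hj => ?_]
  · simp [hx]
  · rw [indicator_of_notMem (fun h => hj (xx_far he (ball_subset_ball one_le_two (WW_one he j h))
      (ball_subset_ball one_le_two (WW_one he k hx)))), mul_zero]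

lemma ww_sg : IsConvSemigroup (ww e) := MM_semigroup (mom_nu_ne he) (nu_neg e)

lemma nb_hit (k : ℕ) (c : E) :
    ∫⁻ x, (WW e k k).indicator 1 (c + x) ∂nb e k ≤ ENNReal.ofReal (rr k / NN k) := by
  have h1 : ∀ {a : ℝ}, |a| = 1 →
      ∑ j, (WW e k k).indicator (1 : E → ℝ≥0∞) (c + a • sb e k j) ≤ 1 := fun {a} ha => by
    refine le_trans (Finset.sum_le_sum fun j _ => ?_) (sb_few he k (xx e k - c) ha)
    refine indicator_apply_le' (fun h => ?_) fun _ => zero_le
    have h2 := WW_ball he k h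
    have h3 : a • sb e k j ∈ ball (xx e k - c) (uu k * RR k) := by
      rw [mem_ball, dist_eq_norm] at h2 ⊢
      rwa [sub_sub_eq_add_sub, add_comm]
    rw [indicator_of_mem h3]
    exact le_rfl
  have h2 := h1 abs_one
  have h3 := h1 (a := -1) (by simp)
  simp only [one_smul, neg_smul] at h2 h3
  rw [nb, lintegral_smul_measure, lint_sym, Finset.sum_add_distrib]
  refine (_root_.smul_le_smul_left _ (add_le_add h2 h3)).trans (le_of_eq ?_)
  have h4 : (0 : ℝ) < NN k := by exact_mod_cast NN_pos k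
  rw [ENNReal.smul_def, smul_eq_mul, ← ENNReal.ofReal_coe_nnreal, ← ENNReal.ofReal_one,
    ← ENNReal.ofReal_add zero_le_one zero_le_one, ← ENNReal.ofReal_mul (NNReal.coe_nonneg _)]
  congr 1
  push_cast
  field_simp
  ring

lemma hit_le (k : ℕ) (t : ℝ≥0) (z : E) : ww e t {y | z + y ∈ WW e k k} ≤
    ENNReal.ofReal (Real.exp (-(rr k : ℝ) * t)) * (ball (xx e k) 2).indicator 1 z +
      (ENNReal.ofReal (2 * (t * Real.exp (-(rr k : ℝ) * t))) +
        ENNReal.ofReal (rr k / NN k * t)) := by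
  obtain ⟨M, hM, h1, h2⟩ := MM_take (mom_sc_ne (mom_nu_ne he) t) k (κ := t • nb e k)
    (ρ := t • na e k) (by rw [sc, nu, smul_add])
  have hm : ∀ c : E, Measurable fun y => (WW e k k).indicator (1 : E → ℝ≥0∞) (c + y) := fun c =>
    (measurable_one.indicator (meas_WW e k k)).comp (measurable_const_add c)
  have hs : MeasurableSet {y | z + y ∈ WW e k k} := measurable_const_add z (meas_WW e k k)
  have h0 : ∀ κ : Measure E, κ {y | z + y ∈ WW e k k} =
      ∫⁻ y, (WW e k k).indicator 1 (z + y) ∂κ := fun κ => by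
    rw [← lintegral_indicator_one hs]; rfl
  have h3 : ∀ y, ∫⁻ x, (WW e k k).indicator 1 (z + (y + x)) ∂cp (t • nb e k) ≤
      ENNReal.ofReal (Real.exp (-(rr k : ℝ) * t)) * (WW e k k).indicator 1 (z + y) +
        ENNReal.ofReal (rr k / NN k * t) := by
    intro y
    have h4 := cp_le' (t • nb e k) (hm (z + y)) (c := ENNReal.ofReal (rr k / NN k * t)) fun v => by
      simp only [add_comm _ v, ← add_assoc]
      rw [lintegral_smul_measure, ENNReal.ofReal_mul' t.coe_nonneg, ENNReal.ofReal_coe_nnreal, mul_comm]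
      exact smul_le_smul_left _ (nb_hit he k _)
    have h5 : (t • nb e k).real univ = rr k * t := by
      rw [Measure.real, Measure.smul_apply, nb_univ, ENNReal.smul_def, smul_eq_mul, mul_comm]
      simp
    simpa only [h5, add_zero, add_assoc, neg_mul] using h4
  have h6 : M {y | z + y ∈ WW e k k} ≤ (ball (xx e k) 2).indicator 1 z + t * 2 := by
    by_cases hz : z ∈ ball (xx e k) 2
    · rw [indicator_of_mem hz]
      exact prob_le_one.trans le_self_add
    · refine le_trans (measure_mono fun y hy => ?_) (h1.trans ?_)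
      · have h7 := mem_ball.1 (WW_one he k hy)
        have h8 := dist_triangle z (z + y) (xx e k)
        rw [mem_ball, not_lt] at hz
        rw [dist_self_add_right] at h8
        show 1 ≤ ‖y‖
        linarith
      · rw [mom_sc]
        exact (mul_le_mul_right (mom_nu he) _).trans le_add_self
  show MM (sc t (nu e)) _ ≤ _
  rw [h2, h0, Measure.lintegral_conv (hm z)]
  refine (lintegral_mono h3).trans ?_
  rw [lintegral_add_right _ measurable_const, lintegral_const, measure_univ, mul_one,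
    lintegral_const_mul _ (hm z), ← h0, ← add_assoc]
  refine add_le_add ((mul_le_mul_right h6 _).trans (le_of_eq ?_)) le_rfl
  rw [mul_add, ENNReal.ofReal_mul zero_le_two, ENNReal.ofReal_mul t.coe_nonneg, ENNReal.ofReal_coe_nnreal,
    ENNReal.ofReal_ofNat]
  ring

variable {μ : Measure E} [μ.IsAddHaarMeasure] {l : ℝ}

lemma res_WW (hl : 0 < l) (k : ℕ) (h : Lp ℂ 1 μ) :
    ∫⁻ x in WW e k k, ‖res (UU μ (ww e) 1) l h x‖ₑ ∂μ ≤
      ENNReal.ofReal (rr k : ℝ)⁻¹ * ∫⁻ z in ball (xx e k) 2, ‖h z‖ₑ ∂μ +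
      (ENNReal.ofReal (2 * (4 / rr k ^ 2)) + ENNReal.ofReal (rr k / NN k * (4 / l ^ 2))) *
        ‖h‖ₑ := by
  have hr : (0 : ℝ) < rr k := by exact_mod_cast rr_pos k
  have hh : Measurable fun z => ‖h z‖ₑ := (Lp.stronglyMeasurable h).enorm
  refine (res_set_le (ww_sg he) hl _ h).trans ?_
  have h1 : ∀ t ∈ Ioi (0 : ℝ), ENNReal.ofReal (Real.exp (-l * t)) *
      ∫⁻ x in WW e k k, ‖cv μ (ww e t.toNNReal) 1 h x‖ₑ ∂μ ≤
      ENNReal.ofReal (Real.exp (-(rr k : ℝ) * t)) * ∫⁻ z in ball (xx e k) 2, ‖h z‖ₑ ∂μ +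
      (ENNReal.ofReal (2 * (t * Real.exp (-(rr k : ℝ) * t))) +
        ENNReal.ofReal (rr k / NN k * (t * Real.exp (-l * t)))) * ‖h‖ₑ := by
    intro t ht
    have ht' : (0 : ℝ) < t := ht
    have h2 : ENNReal.ofReal (Real.exp (-l * t)) ≤ 1 :=
      ENNReal.ofReal_le_one.2 (Real.exp_le_one_iff.2 (by nlinarith))
    have h3 := (cv_set_le (ww e t.toNNReal) _ (meas_WW e k k) h).trans
      (lintegral_mono fun z => mul_le_mul_right (hit_le he k t.toNNReal z) _)
    rw [Real.coe_toNNReal _ ht'.le] at h3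
    simp only [mul_add] at h3
    rw [lintegral_add_right _ (by fun_prop),
      lintegral_add_right _ (hh.mul_const _), lintegral_mul_const _ hh, lintegral_mul_const _ hh,
      ← enorm_L1] at h3
    refine (mul_le_mul_right h3 _).trans ?_
    rw [mul_add, mul_add, add_mul]
    refine add_le_add ((mul_le_of_le_one_left' h2).trans (le_of_eq ?_))
      (add_le_add ((mul_le_of_le_one_left' h2).trans (mul_comm _ _).le) (le_of_eq ?_))
    · rw [← lintegral_indicator measurableSet_ball,
        ← lintegral_const_mul _ (hh.indicator measurableSet_ball)]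
      refine lintegral_congr fun z => ?_
      by_cases hz : z ∈ ball (xx e k) 2 <;> simp [hz, mul_comm]
    · rw [← mul_assoc (_ / _), ENNReal.ofReal_mul' (Real.exp_pos _).le]
      ring
  refine (setLIntegral_mono' measurableSet_Ioi h1).trans ?_
  rw [lintegral_add_left (by fun_prop), lintegral_mul_const _ (by fun_prop),
    lintegral_mul_const _ (by fun_prop), lintegral_add_left (by fun_prop), lint_exp hr]
  exact add_le_add le_rfl (mul_le_mul_left
    (add_le_add (lint_texp hr zero_le_two) (lint_texp hl (by positivity))) _)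

lemma hp (hl : 0 < l) : ∃ C : ℝ≥0, ∀ h : Lp ℂ 1 μ,
    ∫⁻ x, ENNReal.ofReal (VV e x) * ‖res (UU μ (ww e) 1) l h x‖ₑ ∂μ ≤ C * ‖h‖ₑ := by
  have hc : 0 ≤ 192 * (8 + 4 / l ^ 2) := by positivity
  refine ⟨192 + (2 * (192 * (8 + 4 / l ^ 2))).toNNReal, fun h => ?_⟩
  refine (lint_VV e (Lp.stronglyMeasurable _).enorm).trans ?_
  have h1 : ∀ k, (192 * rr k : ℝ≥0∞) * ∫⁻ x in WW e k k, ‖res (UU μ (ww e) 1) l h x‖ₑ ∂μ ≤
      192 * ∫⁻ z in ball (xx e k) 2, ‖h z‖ₑ ∂μ +
        ENNReal.ofReal (192 * (8 + 4 / l ^ 2) * 2⁻¹ ^ k) * ‖h‖ₑ := by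
    intro k
    have hr : (0 : ℝ) < rr k := by exact_mod_cast rr_pos k
    have h2 : (2 : ℝ) ^ k ≤ rr k := by exact_mod_cast two_pow_le_rr k
    have h3 : (rr k : ℝ)⁻¹ ≤ 2⁻¹ ^ k := by rw [inv_pow]; exact inv_anti₀ (by positivity) h2
    refine (mul_le_mul_right (res_WW he hl k h) _).trans ?_
    rw [mul_add, ← mul_assoc, ← mul_assoc, mul_assoc 192, ← ENNReal.ofReal_natCast,
      ← ENNReal.ofReal_mul hr.le, mul_inv_cancel₀ hr.ne', ENNReal.ofReal_one, mul_one,
      ← ENNReal.ofReal_add (by positivity) (by positivity), ← ENNReal.ofReal_ofNat 192,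
      ← ENNReal.ofReal_mul (by norm_num), ← ENNReal.ofReal_mul (by positivity)]
    refine add_le_add le_rfl (mul_le_mul_left (ENNReal.ofReal_le_ofReal ?_) _)
    have h4 : 192 * (rr k : ℝ) * (2 * (4 / rr k ^ 2) + rr k / NN k * (4 / l ^ 2)) =
        192 * (8 * (rr k : ℝ)⁻¹ + 4 / l ^ 2 * 2⁻¹ ^ k) := by
      rw [NN, inv_pow]
      push_cast
      field_simp
      ring
    rw [h4]
    linarith
  refine (ENNReal.tsum_le_tsum h1).trans ?_
  rw [ENNReal.tsum_add, ENNReal.tsum_mul_left, ENNReal.tsum_mul_right, tsum_half hc,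
    ← lintegral_iUnion (fun _ => measurableSet_ball)
      fun i j hij => disjoint_left.2 fun x hi hj => hij (xx_far he hi hj), ENNReal.coe_add, add_mul]
  refine add_le_add (mul_le_mul' (by simp) ?_) le_rfl
  rw [enorm_L1]
  exact setLIntegral_le_lintegral _ _

end Pool.Agent.Lib.MP_62a15f_an.Cv
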