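import Mathlib

/-! Sums of many independent jumps: word length and a ground state. -/

open MeasureTheory Filter Topology Set
open scoped ENNReal NNReal

set_option linter.unusedSectionVars false

namespace Pool.Agent.Lib.MP_62a15f_an.Cv

variable {m : ℕ}

/-- The `ℓ¹` norm of an integer vector. -/
def l1 (u : Fin m → ℤ) : ℕ := ∑ i, (u i).natAbs

lemma l1_add (u v : Fin m → ℤ) : l1 (u + v) ≤ l1 u + l1 v := by
  unfold l1
  rw [← Finset.sum_add_distrib]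
  exact Finset.sum_le_sum fun i _ => Int.natAbs_add_le _ _

lemma l1_single (i : Fin m) (a : ℤ) : l1 (Pi.single i a) = a.natAbs := by
  unfold l1
  rw [Finset.sum_eq_single i (fun j _ hj => by simp [hj]) (by simp)]
  simp

lemma le_l1 (u : Fin m → ℤ) (i : Fin m) : (u i).natAbs ≤ l1 u :=
  Finset.single_le_sum (f := fun i => (u i).natAbs) (fun _ _ => Nat.zero_le _) (Finset.mem_univ i)

lemma l1_add_single (u : Fin m → ℤ) (i : Fin m) (a : ℤ) :
    l1 (u + Pi.single i a) + (u i).natAbs = l1 u + (u i + a).natAbs := by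
  unfold l1
  rw [← Finset.add_sum_erase _ _ (Finset.mem_univ i),
    ← Finset.add_sum_erase _ (fun j => (u j).natAbs) (Finset.mem_univ i),
    Finset.sum_congr rfl (g := fun j => (u j).natAbs) fun j hj => by
      simp [Finset.ne_of_mem_erase hj]]
  simp only [Pi.add_apply, Pi.single_eq_same]
  ring

lemma pow_nbr (u : Fin m → ℤ) (i : Fin m) :
    (8⁻¹ : ℝ) ^ l1 (u + Pi.single i (-1)) + 8⁻¹ ^ l1 (u + Pi.single i 1) ≤
      8⁻¹ ^ l1 u * (4⁻¹ + 8 * (u i).natAbs) := by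
  have h1 := l1_add_single u i (-1)
  have h2 := l1_add_single u i 1
  have h0 : (0 : ℝ) < 8⁻¹ ^ l1 u := by positivity
  have up : ∀ a : ℕ, a = l1 u + 1 → (8⁻¹ : ℝ) ^ a = 8⁻¹ ^ l1 u * 8⁻¹ := fun a ha => by
    rw [ha, pow_succ]
  have dn : ∀ a : ℕ, a + 1 = l1 u → (8⁻¹ : ℝ) ^ a = 8⁻¹ ^ l1 u * 8 := fun a ha => by
    rw [← ha, pow_succ]; ring
  rcases lt_trichotomy (u i) 0 with h | h | h
  · have h3 : (1 : ℝ) ≤ (u i).natAbs := by exact_mod_cast (by omega : 1 ≤ (u i).natAbs)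
    rw [up _ (by omega), dn (l1 (u + Pi.single i 1)) (by omega)]
    nlinarith
  · rw [up _ (by omega), up (l1 (u + Pi.single i 1)) (by omega), h]
    simp only [Int.natAbs_zero, Nat.cast_zero]
    linarith
  · have h3 : (1 : ℝ) ≤ (u i).natAbs := by exact_mod_cast (by omega : 1 ≤ (u i).natAbs)
    rw [dn _ (by omega), up (l1 (u + Pi.single i 1)) (by omega)]
    nlinarith

lemma digits_zero {Q : ℤ} (hQ : 0 < Q) : ∀ (m : ℕ) (a : Fin m → ℤ), (∀ i, |a i| < Q) →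
    ∑ i, a i * Q ^ (i : ℕ) = 0 → a = 0 := by
  intro m
  induction m with
  | zero => intro a _ _; exact Subsingleton.elim _ _
  | succ m ih =>
    intro a ha h
    rw [Fin.sum_univ_succ] at h
    have h1 : ∑ i : Fin m, a i.succ * Q ^ (i.succ : ℕ) = Q * ∑ i : Fin m, a i.succ * Q ^ (i : ℕ) := by
      rw [Finset.mul_sum]
      exact Finset.sum_congr rfl fun i _ => by rw [Fin.val_succ, pow_succ]; ring
    rw [h1] at h
    simp only [Fin.val_zero, pow_zero, mul_one] at h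
    have h2 : a 0 = 0 :=
      Int.eq_zero_of_abs_lt_dvd ⟨-∑ i : Fin m, a i.succ * Q ^ (i : ℕ), by linarith⟩ (ha 0)
    rw [h2, zero_add] at h
    have h3 := ih (fun i => a i.succ) (fun i => ha _) ((mul_eq_zero.1 h).resolve_left hQ.ne')
    funext i
    exact Fin.cases h2 (fun j => congrFun h3 j) i

variable {E : Type} [NormedAddCommGroup E] [InnerProductSpace ℝ E] [FiniteDimensional ℝ E]
  [MeasurableSpace E] [BorelSpace E] (σ : Fin m → E)

/-- The position after the jumps counted by `u`. -/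
def pos (u : Fin m → ℤ) : E := ∑ i, u i • σ i

lemma pos_add (u v : Fin m → ℤ) : pos σ (u + v) = pos σ u + pos σ v := by
  simp [pos, add_smul, Finset.sum_add_distrib]

lemma pos_single (i : Fin m) (a : ℤ) : pos σ (Pi.single i a) = a • σ i := by
  unfold pos
  rw [Finset.sum_eq_single i (fun j _ hj => by simp [hj]) (by simp)]
  simp

lemma norm_pos_le {h : ℝ} (hσ : ∀ i, ‖σ i‖ ≤ h) (u : Fin m → ℤ) : ‖pos σ u‖ ≤ l1 u * h := by
  unfold pos l1
  push_cast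
  rw [Finset.sum_mul]
  refine (norm_sum_le _ _).trans (Finset.sum_le_sum fun i _ => ?_)
  rw [norm_zsmul ℝ, Nat.cast_natAbs, Int.cast_abs]
  exact mul_le_mul_of_nonneg_left (hσ i) (abs_nonneg _)

/-- The points within `η` of a sum of at most `n` jumps from `x₀`. -/
def Wd (x₀ : E) (n : ℕ) (η : ℝ) : Set E := {x | ∃ u, l1 u ≤ n ∧ ‖x - x₀ - pos σ u‖ < η}

lemma meas_near (x₀ : E) (η : ℝ) (u : Fin m → ℤ) :
    MeasurableSet {x : E | ‖x - x₀ - pos σ u‖ < η} :=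
  (isOpen_lt (by fun_prop) continuous_const).measurableSet

lemma meas_Wd (x₀ : E) (n : ℕ) (η : ℝ) : MeasurableSet (Wd σ x₀ n η) := by
  have : Wd σ x₀ n η = ⋃ u, ⋃ (_ : l1 u ≤ n), {x : E | ‖x - x₀ - pos σ u‖ < η} := by
    ext x; simp [Wd]
  rw [this]
  exact .iUnion fun u => .iUnion fun _ => meas_near σ x₀ η u

open Classical in
/-- The ground state near `x₀`. -/
noncomputable def gs (x₀ : E) (L : ℕ) (η : ℝ) (x : E) : ℝ :=
  ⨆ u, if ‖x - x₀ - pos σ u‖ < η then (if l1 u ≤ L then 8⁻¹ ^ l1 u else 0) else 0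

variable {σ} {x₀ : E} {L n : ℕ} {η : ℝ}

lemma gs_meas : Measurable (gs σ x₀ L η) :=
  Measurable.iSup fun u => Measurable.ite (meas_near σ x₀ η u) measurable_const measurable_const

lemma gs_le {x : E} {c : ℝ} (hc : 0 ≤ c)
    (h : ∀ u, l1 u ≤ L → ‖x - x₀ - pos σ u‖ < η → 8⁻¹ ^ l1 u ≤ c) : gs σ x₀ L η x ≤ c :=
  ciSup_le fun u => by
    split_ifs with h1 h2
    exacts [h u h2 h1, hc, hc]

lemma gs_le_one (x : E) : gs σ x₀ L η x ≤ 1 :=
  gs_le zero_le_one fun _ _ _ => pow_le_one₀ (by norm_num) (by norm_num)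

lemma gs_nonneg (x : E) : 0 ≤ gs σ x₀ L η x :=
  Real.iSup_nonneg fun u => by split_ifs <;> positivity

lemma le_gs {x : E} {u : Fin m → ℤ} (h1 : l1 u ≤ L) (h2 : ‖x - x₀ - pos σ u‖ < η) :
    8⁻¹ ^ l1 u ≤ gs σ x₀ L η x := by
  refine le_trans (le_of_eq ?_) (le_ciSup ⟨1, ?_⟩ u)
  · rw [if_pos h2, if_pos h1]
  · rintro _ ⟨v, rfl⟩
    dsimp only
    split_ifs
    exacts [pow_le_one₀ (by norm_num) (by norm_num), zero_le_one, zero_le_one]

lemma gs_step (hm : 32 * (L + 1) ≤ m)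
    (hsep : ∀ u v, l1 u ≤ L + 1 → l1 v ≤ L + 1 → ‖pos σ u - pos σ v‖ < 2 * η → u = v) (x : E) :
    ∑ i, (gs σ x₀ L η (x - σ i) + gs σ x₀ L η (x + σ i)) ≤
      2 * m * (4⁻¹ * gs σ x₀ L η x + 4⁻¹ * 8⁻¹ ^ (L + 1)) := by
  have hn : ∀ (i : Fin m) (a : ℤ) (u : Fin m → ℤ), a.natAbs = 1 → l1 u ≤ L →
      ‖x - a • σ i - x₀ - pos σ u‖ < η →
      l1 (u + Pi.single i a) ≤ L + 1 ∧ ‖x - x₀ - pos σ (u + Pi.single i a)‖ < η := by
    intro i a u ha h1 h2
    refine ⟨(l1_add _ _).trans (by rw [l1_single]; omega), ?_⟩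
    rw [pos_add, pos_single]
    convert h2 using 2
    abel
  have h0 := gs_nonneg (σ := σ) (x₀ := x₀) (L := L) (η := η) x
  by_cases hv : ∃ v, l1 v ≤ L + 1 ∧ ‖x - x₀ - pos σ v‖ < η
  · obtain ⟨v, hv1, hv2⟩ := hv
    have hu : ∀ (i : Fin m) (a : ℤ), a.natAbs = 1 →
        gs σ x₀ L η (x - a • σ i) ≤ 8⁻¹ ^ l1 (v + Pi.single i (-a)) := by
      intro i a ha
      refine gs_le (by positivity) fun u h1 h2 => le_of_eq ?_
      obtain ⟨h3, h4⟩ := hn i a u ha h1 h2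
      have h5 : u + Pi.single i a = v := hsep _ _ h3 hv1 (by
        have := norm_sub_le (x - x₀ - pos σ v) (x - x₀ - pos σ (u + Pi.single i a))
        rw [sub_sub_sub_cancel_left] at this
        linarith)
      rw [← h5, add_assoc, ← Pi.single_add, add_neg_cancel, Pi.single_zero, add_zero]
    have h6 : ∑ i, (gs σ x₀ L η (x - σ i) + gs σ x₀ L η (x + σ i)) ≤
        ∑ i, (8⁻¹ : ℝ) ^ l1 v * (4⁻¹ + 8 * (v i).natAbs) := by
      refine Finset.sum_le_sum fun i _ => le_trans (add_le_add ?_ ?_) (pow_nbr v i)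
      · simpa using hu i 1 rfl
      · simpa using hu i (-1) rfl
    have h11 : ∑ i, ((4⁻¹ : ℝ) + 8 * (v i).natAbs) =
        m * 4⁻¹ + 8 * ((∑ i, (v i).natAbs : ℕ) : ℝ) := by
      rw [Finset.sum_add_distrib, ← Finset.mul_sum, ← Nat.cast_sum]
      simp only [Finset.sum_const, Finset.card_univ, Fintype.card_fin, nsmul_eq_mul]
    rw [← Finset.mul_sum, h11] at h6
    have h7 : ((∑ i, (v i).natAbs : ℕ) : ℝ) * 32 ≤ m := by
      have : l1 v * 32 ≤ m := by omega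
      exact_mod_cast this
    have h8 : (8⁻¹ : ℝ) ^ l1 v ≤ gs σ x₀ L η x + 8⁻¹ ^ (L + 1) := by
      rcases Nat.lt_or_ge L (l1 v) with h | h
      · rw [show l1 v = L + 1 by omega]; linarith
      · have := le_gs h hv2
        have : (0 : ℝ) ≤ 8⁻¹ ^ (L + 1) := by positivity
        linarith
    have h9 : (0 : ℝ) ≤ 8⁻¹ ^ l1 v := by positivity
    have h10 : (0 : ℝ) ≤ m := by positivity
    refine h6.trans ((mul_le_mul_of_nonneg_left (show _ ≤ (m : ℝ) / 2 by linarith) h9).trans ?_)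
    nlinarith
  · have hu : ∀ (i : Fin m) (a : ℤ), a.natAbs = 1 → gs σ x₀ L η (x - a • σ i) ≤ 0 :=
      fun i a ha => gs_le le_rfl fun u h1 h2 => absurd ⟨_, hn i a u ha h1 h2⟩ hv
    refine le_trans (Finset.sum_nonpos fun i _ => add_nonpos ?_ ?_) (by positivity)
    · simpa using hu i 1 rfl
    · simpa using hu i (-1) rfl

lemma ground {s : ℕ} (hm : 32 * (n + s + 1) ≤ m)
    (hsep : ∀ u v, l1 u ≤ n + s + 1 → l1 v ≤ n + s + 1 → ‖pos σ u - pos σ v‖ < 2 * η → u = v) :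
    ∃ (g : E → ℝ) (a : ℝ), Measurable g ∧ 0 < a ∧ (∀ x, a ≤ g x ∧ g x ≤ 2) ∧
      ∀ x, ∑ i, (g (x - σ i) + g (x + σ i)) ≤
        2 * m * g x * (1 + 8⁻¹ ^ s - (Wd σ x₀ n η).indicator (fun _ => 2⁻¹) x) := by
  have hk : (0 : ℝ) < 8⁻¹ ^ (n + 1) := by positivity
  have hk1 : (8⁻¹ : ℝ) ^ (n + 1) ≤ 1 := pow_le_one₀ (by norm_num) (by norm_num)
  refine ⟨fun x => gs σ x₀ (n + s) η x + 8⁻¹ ^ (n + 1), 8⁻¹ ^ (n + 1), gs_meas.add_const _, hk,
    fun x => ⟨by linarith [gs_nonneg (σ := σ) (x₀ := x₀) (L := n + s) (η := η) x],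
      by linarith [gs_le_one (σ := σ) (x₀ := x₀) (L := n + s) (η := η) x]⟩, fun x => ?_⟩
  have h1 := gs_step (x₀ := x₀) hm hsep x
  have h0 := gs_nonneg (σ := σ) (x₀ := x₀) (L := n + s) (η := η) x
  have h2 : ∑ i, (gs σ x₀ (n + s) η (x - σ i) + 8⁻¹ ^ (n + 1) +
      (gs σ x₀ (n + s) η (x + σ i) + 8⁻¹ ^ (n + 1))) =
      ∑ i, (gs σ x₀ (n + s) η (x - σ i) + gs σ x₀ (n + s) η (x + σ i)) +
        2 * m * 8⁻¹ ^ (n + 1) := by
    simp only [Finset.sum_add_distrib, Finset.sum_const, Finset.card_univ, Fintype.card_fin,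
      nsmul_eq_mul]
    ring
  have h3 : (8⁻¹ : ℝ) ^ (n + s + 1) = 8⁻¹ ^ (n + 1) * 8⁻¹ ^ s := by ring
  have h4 : (0 : ℝ) ≤ 8⁻¹ ^ s := by positivity
  rw [h2, mul_assoc (2 * (m : ℝ))]
  refine (add_le_add h1 le_rfl).trans ?_
  rw [← mul_add, h3]
  refine mul_le_mul_of_nonneg_left ?_ (by positivity)
  by_cases hx : x ∈ Wd σ x₀ n η
  · rw [indicator_of_mem hx]
    obtain ⟨u, hu1, hu2⟩ := hx
    have h5 := le_gs (L := n + s) (by omega) hu2
    have h6 : (8⁻¹ : ℝ) ^ n ≤ 8⁻¹ ^ l1 u := pow_le_pow_of_le_one (by norm_num) (by norm_num) hu1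
    have h7 : (8⁻¹ : ℝ) ^ (n + 1) = 8⁻¹ ^ n * 8⁻¹ := pow_succ _ _
    nlinarith [mul_nonneg h0 h4, mul_nonneg hk.le h4]
  · rw [indicator_of_notMem hx]
    nlinarith [mul_nonneg h0 h4, mul_nonneg hk.le h4]

open Classical in
variable (σ) in
/-- The word length. -/
noncomputable def len (x : E) : ℝ≥0∞ := ⨅ u, if x = pos σ u then (l1 u : ℝ≥0∞) else ∞

lemma len_meas : Measurable (len σ) :=
  Measurable.iInf fun u =>
    Measurable.ite (measurableSet_singleton (pos σ u)) measurable_const measurable_const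

lemma len_le (u : Fin m → ℤ) : len σ (pos σ u) ≤ l1 u :=
  (iInf_le _ u).trans (by rw [if_pos rfl])

lemma len_zero : len σ 0 = 0 := by
  have := len_le (σ := σ) 0
  simpa [pos, l1] using this

lemma len_add (x y : E) : len σ (x + y) ≤ len σ x + len σ y := by
  refine ENNReal.le_iInf_add_iInf fun u v => ?_
  split_ifs with h1 h2
  · rw [h1, h2, ← pos_add]
    exact (len_le _).trans (by exact_mod_cast l1_add u v)
  all_goals simp

lemma of_len_lt {x : E} {J : ℕ} (h : len σ x < J) : ∃ u, l1 u ≤ J ∧ x = pos σ u := by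
  obtain ⟨u, hu⟩ := iInf_lt_iff.1 h
  split_ifs at hu with h1
  · exact ⟨u, by exact_mod_cast hu.le, h1⟩
  · simp at hu

lemma len_jump (i : Fin m) : len σ (σ i) ≤ 1 ∧ len σ (-σ i) ≤ 1 := by
  have h1 := len_le (σ := σ) (Pi.single i 1)
  have h2 := len_le (σ := σ) (Pi.single i (-1))
  rw [pos_single, l1_single] at h1 h2
  exact ⟨by simpa using h1, by simpa using h2⟩

end Pool.Agent.Lib.MP_62a15f_an.Cv
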