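import Pool.Agent.Lib.MP_62a15f_an.Cv.Hit

/-! The chains, the form-bound and the main theorem. -/

open MeasureTheory Filter Topology Set Metric
open scoped ENNReal NNReal

set_option linter.unusedSectionVars false

namespace Pool.Agent.Lib.MP_62a15f_an.Cv

variable {E : Type} [NormedAddCommGroup E] [InnerProductSpace ℝ E] [FiniteDimensional ℝ E]
  [MeasurableSpace E] [BorelSpace E]

lemma conv_compl (a b : Measure E) [IsProbabilityMeasure a] [IsProbabilityMeasure b]
    {A B G : Set E} (hG : MeasurableSet G) (h : ∀ x ∈ A, ∀ y ∈ B, x + y ∈ G) :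
    (a ∗ b) Gᶜ ≤ a Aᶜ + b Bᶜ := by
  rw [Measure.conv, Measure.map_apply measurable_add hG.compl]
  refine (measure_mono (t := Aᶜ ×ˢ univ ∪ univ ×ˢ Bᶜ) fun z hz => ?_).trans
    ((measure_union_le _ _).trans (by simp [Measure.prod_prod]))
  by_contra h1
  simp only [mem_union, mem_prod, mem_compl_iff, mem_univ, and_true, true_and, not_or,
    not_not] at h1
  exact hz (h _ h1.1 _ h1.2)

lemma cp_len (e : E) (k : ℕ) (t : ℝ≥0) :
    cp (t • na e k) {x | len (sa e k) x < (2 ^ k : ℕ)}ᶜ ≤ t * rr k := by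
  have h1 := (mul_meas_ge_le_lintegral (μ := cp (t • na e k)) (len_meas (σ := sa e k))
    ((2 ^ k : ℕ) : ℝ≥0∞)).trans (cp_subadd _ len_meas len_zero len_add)
  rw [lintegral_smul_measure] at h1
  have h2 : _ ≤ (t : ℝ≥0∞) * (la k * 1) :=
    h1.trans (mul_le_mul_right (smul_sym_le (mm_pos k) (la k) (sa e k) len_jump) _)
  rw [mul_one, la, Nat.cast_mul, mul_left_comm,
    ENNReal.mul_le_mul_iff_right (by simp) (by simp)] at h2
  simpa only [compl_ofPred, not_lt] using h2

variable {e : E} (he : ‖e‖ = 1)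
include he

lemma step (k j : ℕ) (t : ℝ≥0) (ht : t * rr k ≤ 16⁻¹) {z : E} (hz : z ∈ WW e k j) :
    2⁻¹ ≤ ww e t {y | z + y ∈ WW e k (j + 1)} := by
  have hs : MeasurableSet {y | z + y ∈ WW e k (j + 1)} := measurable_const_add z (meas_WW e k _)
  have h1 : ww e t = (cp (∑ i ∈ Finset.range k, sc t (nu e) i + t • nb e k) ∗ cp (t • na e k)) ∗
      MM (cut (Finset.range (k + 1)) (sc t (nu e))) := by
    rw [← cp_add, add_assoc, ← smul_add]
    exact (MM_split (mom_sc_ne (mom_nu_ne he) t) _).trans (by rw [Finset.sum_range_succ]; rfl)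
  have h2 : cp (∑ i ∈ Finset.range k, sc t (nu e) i + t • nb e k) {0}ᶜ ≤ t * rr k + t * rr k := by
    refine (cp_ne_zero _).trans ?_
    simp only [sc]
    rw [← Finset.smul_sum, Measure.add_apply, Measure.smul_apply, Measure.smul_apply, nb_univ]
    exact add_le_add (mul_le_mul_right (slow_mass e k) _) le_rfl
  have h3 : MM (cut (Finset.range (k + 1)) (sc t (nu e))) {y | ‖y‖ < et k}ᶜ ≤ t * rr k := by
    have h4 := MM_tail (ε := et k) (ne_top_of_le_ne_top (mom_sc_ne (mom_nu_ne he) t)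
      (mom_cut (ν := sc t (nu e)) (Finset.range (k + 1))))
    have h5 : cut (Finset.range (k + 1)) (sc t (nu e)) = sc t (cut (Finset.range (k + 1)) (nu e)) :=
      funext fun i => by
        simp only [cut, sc]
        split_ifs
        exacts [(smul_zero _).symm, rfl]
    have h6 : mom (cut (Finset.range (k + 1)) (sc t (nu e))) ≤ ENNReal.ofReal (et k) * t := by
      rw [h5, mom_sc, mul_comm]
      exact mul_le_mul_left (mom_fast he k) _
    have h7 := (ENNReal.mul_le_mul_iff_right (by simpa using et_pos k) (by simp)).1 (h4.trans h6)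
    simp only [compl_ofPred, not_lt]
    exact h7.trans (le_mul_of_one_le_right' (by exact_mod_cast rr_pos k))
  have h4 : ww e t {y | z + y ∈ WW e k (j + 1)}ᶜ ≤ 2⁻¹ := by
    rw [h1]
    refine (conv_compl _ _ (A := {x | len (sa e k) x < (2 ^ k : ℕ)}) hs ?_).trans
      ((add_le_add ((conv_compl _ _ (measurableSet_lt len_meas measurable_const) ?_).trans
        (add_le_add h2 (cp_len e k t))) h3).trans ?_)
    · intro x hx y hy
      obtain ⟨v, h5, rfl⟩ := of_len_lt hx
      obtain ⟨u, h6, h7⟩ := hz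
      refine ⟨u + v, (l1_add u v).trans (by rw [add_mul, one_mul]; omega), ?_⟩
      have h8 := norm_add_le (z - xx e k - pos (sa e k) u) y
      have h9 : ‖y‖ < et k := hy
      rw [pos_add, show z + (pos (sa e k) v + y) - xx e k - (pos (sa e k) u + pos (sa e k) v) =
        z - xx e k - pos (sa e k) u + y by abel]
      push_cast
      linarith
    · intro x hx y hy
      rwa [mem_singleton_iff.1 hx, zero_add]
    · have h5 : t * rr k + t * rr k + t * rr k + t * rr k ≤ (2⁻¹ : ℝ≥0) := by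
        refine (add_le_add (add_le_add (add_le_add ht ht) ht) ht).trans ?_
        rw [← NNReal.coe_le_coe]
        norm_num
      have h6 := ENNReal.coe_le_coe.2 h5
      simpa using h6
  have h5 := prob_add_prob_compl (μ := ww e t) hs
  refine (ENNReal.add_le_add_iff_right (a := 2⁻¹) (by simp)).1 ?_
  rw [ENNReal.inv_two_add_inv_two, ← h5]
  exact add_le_add le_rfl h4

variable {μ : Measure E} [μ.IsAddHaarMeasure]

lemma chain {l : ℝ} (n : ℕ) : Chain μ (ww e) (VV e) l n := by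
  obtain ⟨k, hn, hl⟩ : ∃ k, n ≤ k ∧ l ≤ rr k := ⟨n + ⌈l⌉₊, le_self_add, (Nat.le_ceil l).trans (by
    exact_mod_cast le_add_self.trans (Nat.lt_two_pow_self.le.trans (two_pow_le_rr _)))⟩
  have hr : (0 : ℝ) < rr k := by exact_mod_cast rr_pos k
  refine ⟨WW e k, 192 * rr k, (16 * rr k)⁻¹, meas_WW e k, ?_, ?_, by positivity, ?_, ?_,
    fun j hj x hx => (VV_eq he (WW_mono (hj.trans hn) hx)).ge, fun j _ t ht z hz => step he k j t ?_ hz⟩
  · refine ((measure_ball_pos μ (xx e k) (et_pos k)).trans_le (measure_mono fun x hx => ?_)).ne'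
    exact ⟨0, by simp [l1], by simpa [pos, dist_eq_norm] using hx⟩
  · exact ((measure_mono ((WW_mono (Nat.zero_le k)).trans (WW_one he k))).trans_lt
      measure_ball_lt_top).ne
  · rw [← div_eq_mul_inv, div_le_one (by positivity)]
    linarith
  · rw [← div_eq_mul_inv, le_div_iff₀ (by positivity)]
    linarith
  · rw [← NNReal.coe_le_coe]
    rw [← one_div, le_div_iff₀ (by positivity)] at ht
    push_cast
    linarith

lemma level (k : ℕ) (φ : Lp ℂ 2 μ) :
    (192 * rr k : ℝ≥0∞) * ∫⁻ x in WW e k k, ‖φ x‖ₑ ^ 2 ∂μ ≤ ENNReal.ofReal (384 * 2⁻¹ ^ k) *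
      (∫⁻ y, ENNReal.ofReal (DD φ y) ∂nu e k + ∫⁻ x, ‖φ x‖ₑ ^ 2 ∂μ) := by
  obtain ⟨g, a, h1, h2, h3, h4⟩ := ground (σ := sa e k) (x₀ := xx e k) (n := k * 2 ^ k)
    (s := k + la k) (η := (k + 1) * et k) (by unfold mm LL; exact le_rfl)
    fun u v hu hv => sa_sep he k u v (by unfold LL; exact hu) (by unfold LL; exact hv)
  have h5 := mul_le_mul_right (level_form φ (sa e k) h1 h2 (by positivity) h3 (meas_WW e k k) h4)
    (la k / (2 * mm k) : ℝ≥0)
  have h7 : ((la k / (2 * mm k) : ℝ≥0) : ℝ≥0∞) * ∫⁻ y, ENNReal.ofReal (DD φ y) ∂sym (sa e k) =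
      ∫⁻ y, ENNReal.ofReal (DD φ y) ∂na e k := by
    rw [na, lintegral_smul_measure]; rfl
  have hm : (0 : ℝ) < mm k := by exact_mod_cast mm_pos k
  rw [mul_add, h7, ← mul_assoc, ← mul_assoc, ← ENNReal.ofReal_coe_nnreal,
    ← ENNReal.ofReal_mul (NNReal.coe_nonneg _), ← ENNReal.ofReal_natCast,
    ← ENNReal.ofReal_mul (NNReal.coe_nonneg _)] at h5
  have h6 : (192 * rr k : ℝ≥0∞) = ENNReal.ofReal (384 * 2⁻¹ ^ k) *
      ENNReal.ofReal ((la k / (2 * mm k) : ℝ≥0) * mm k) := by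
    rw [← ENNReal.ofReal_mul (by positivity), ← ENNReal.ofReal_natCast,
      ← ENNReal.ofReal_ofNat 192, ← ENNReal.ofReal_mul (by norm_num), la, inv_pow]
    congr 1
    push_cast
    field_simp
    ring
  rw [h6, mul_assoc]
  refine mul_le_mul_right (h5.trans (add_le_add (lintegral_mono' (Measure.le_add_left le_rfl)
    le_rfl) (mul_le_of_le_one_left' (ENNReal.ofReal_le_one.2 ?_)))) _
  refine le_trans (le_of_eq ?_) ((la_small k).trans (pow_le_one₀ (by norm_num) (by norm_num)))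
  push_cast
  field_simp

lemma form_le (K : ℕ) : formBound (UU μ (ww e)) (VV e) ≤ ENNReal.ofReal (384 * 2⁻¹ ^ K) := by
  set C : ℝ := 384 + 192 * ∑ i ∈ Finset.range K, (la i : ℝ) with hC
  have h0 : 0 ≤ ∑ i ∈ Finset.range K, (la i : ℝ) := by positivity
  refine iInf₂_le (384 * 2⁻¹ ^ K : ℝ).toNNReal ⟨(2 * C).toNNReal, fun φ _ => ?_⟩
  have hφ : Measurable fun x => ‖φ x‖ₑ ^ 2 := (Lp.stronglyMeasurable φ).enorm.pow_const 2
  refine (lint_VV e hφ).trans ?_
  have h1 : ∀ k, (192 * rr k : ℝ≥0∞) * ∫⁻ x in WW e k k, ‖φ x‖ₑ ^ 2 ∂μ ≤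
      ENNReal.ofReal (384 * 2⁻¹ ^ K) * ∫⁻ y, ENNReal.ofReal (DD φ y) ∂nu e k +
        ENNReal.ofReal (C * 2⁻¹ ^ k) * ∫⁻ x, ‖φ x‖ₑ ^ 2 ∂μ := by
    intro k
    have h2 : (0 : ℝ) < 2⁻¹ ^ k := by positivity
    rcases lt_or_ge k K with h | h
    · refine le_trans (mul_le_mul' ?_ (setLIntegral_le_lintegral _ _)) le_add_self
      have h3 : (la k : ℝ) ≤ ∑ i ∈ Finset.range K, (la i : ℝ) :=
        Finset.single_le_sum (f := fun i => (la i : ℝ)) (fun i _ => by positivity)
          (Finset.mem_range.2 h)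
      have h4 : (rr k : ℝ) = la k * 2⁻¹ ^ k := by
        rw [la, inv_pow]; push_cast; field_simp
      rw [← ENNReal.ofReal_natCast, ← ENNReal.ofReal_ofNat 192, ← ENNReal.ofReal_mul (by norm_num)]
      exact ENNReal.ofReal_le_ofReal (by rw [h4]; nlinarith)
    · refine (level he k φ).trans ?_
      rw [mul_add]
      have h3 : (2⁻¹ : ℝ) ^ k ≤ 2⁻¹ ^ K := pow_le_pow_of_le_one (by norm_num) (by norm_num) h
      exact add_le_add (mul_le_mul_left (ENNReal.ofReal_le_ofReal (by linarith)) _)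
        (mul_le_mul_left (ENNReal.ofReal_le_ofReal (by nlinarith)) _)
  refine (ENNReal.tsum_le_tsum h1).trans ?_
  rw [ENNReal.tsum_add, ENNReal.tsum_mul_left, ENNReal.tsum_mul_right, tsum_half (by positivity)]
  refine add_le_add (mul_le_mul_right ?_ _) le_rfl
  rw [ENNReal.tsum_eq_iSup_sum]
  exact iSup_le fun F => form_ge (mom_nu_ne he) F φ

lemma form_zero : formBound (UU μ (ww e)) (VV e) = 0 := by
  have h := ENNReal.tendsto_ofReal ((tendsto_pow_atTop_nhds_zero_of_lt_one (r := (2⁻¹ : ℝ))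
    (by norm_num) (by norm_num)).const_mul 384)
  rw [mul_zero, ENNReal.ofReal_zero] at h
  exact le_antisymm (ge_of_tendsto' h (form_le he)) zero_le

theorem main : HasConvGap μ := by
  obtain ⟨h1, A, h2, δ, h3, h4⟩ := pot_main (μ := μ) (ww_sg he) (meas_VV e)
    (fun _ => ENNReal.toReal_nonneg) (fun _ hl => hp he hl) fun _ _ n => chain he n
  exact ⟨ww e, UU μ (ww e), VV e, ww_sg he, UU_acts, UU_ssm (ww_sg he), meas_VV e,
    fun _ => ENNReal.toReal_nonneg, h1, A, h2, δ, h3, form_zero he, h4⟩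

end Pool.Agent.Lib.MP_62a15f_an.Cv
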