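import Pool.Agent.Lib.MP_62a15f_an.Defs

/-! Convolution with a probability measure as an operator on every `L^p`. -/

open MeasureTheory Filter Topology
open scoped ENNReal NNReal InnerProductSpace ComplexConjugate

namespace Pool.Agent.Lib.MP_62a15f_an.Cv

section marg

variable {X Y : Type} [MeasurableSpace X] [MeasurableSpace Y] {μ : Measure X}
  {m : Measure Y} [IsProbabilityMeasure m]

lemma marg_pow {F : X × Y → ℂ} (hF : AEStronglyMeasurable F (μ.prod m)) {p : ℝ≥0∞}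
    (hp : 1 ≤ p) (hp' : p ≠ ∞) :
    ∀ᵐ x ∂μ, (∫⁻ y, ‖F (x, y)‖ₑ ∂m) ^ p.toReal ≤ ∫⁻ y, ‖F (x, y)‖ₑ ^ p.toReal ∂m := by
  have hp0 : p ≠ 0 := (zero_lt_one.trans_le hp).ne'
  have hq : 0 < p.toReal := ENNReal.toReal_pos hp0 hp'
  filter_upwards [hF.prodMk_left] with x hx
  have h1 := eLpNorm_le_eLpNorm_of_exponent_le (μ := m) hp hx
  rw [eLpNorm_one_eq_lintegral_enorm, eLpNorm_eq_lintegral_rpow_enorm_toReal hp0 hp'] at h1
  have h2 := ENNReal.rpow_le_rpow h1 hq.le
  rwa [← ENNReal.rpow_mul, one_div, inv_mul_cancel₀ hq.ne', ENNReal.rpow_one] at h2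

lemma eLpNorm_marg {F : X × Y → ℂ} (hF : AEStronglyMeasurable F (μ.prod m)) {p : ℝ≥0∞}
    (hp : 1 ≤ p) : eLpNorm (fun x => ∫ y, F (x, y) ∂m) p μ ≤ eLpNorm F p (μ.prod m) := by
  have hp0 : p ≠ 0 := (zero_lt_one.trans_le hp).ne'
  by_cases hp' : p = ∞
  · subst hp'
    rw [eLpNorm_exponent_top, eLpNorm_exponent_top]
    refine eLpNormEssSup_le_of_ae_enorm_bound ?_
    filter_upwards [Measure.ae_ae_of_ae_prod (ae_le_eLpNormEssSup (f := F) (μ := μ.prod m))]
      with x hx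
    refine (enorm_integral_le_lintegral_enorm _).trans ?_
    refine (lintegral_mono_ae hx).trans ?_
    simp
  · have hq : 0 < p.toReal := ENNReal.toReal_pos hp0 hp'
    rw [eLpNorm_eq_lintegral_rpow_enorm_toReal hp0 hp',
      eLpNorm_eq_lintegral_rpow_enorm_toReal hp0 hp']
    refine ENNReal.rpow_le_rpow ?_ (by positivity)
    rw [lintegral_prod _ (hF.enorm.pow_const _)]
    refine lintegral_mono_ae ?_
    filter_upwards [marg_pow hF hp hp'] with x hx
    exact (ENNReal.rpow_le_rpow (enorm_integral_le_lintegral_enorm _) hq.le).trans hx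

lemma ae_integrable_marg {F : X × Y → ℂ} {p : ℝ≥0∞} (hp : 1 ≤ p)
    (hF : MemLp F p (μ.prod m)) : ∀ᵐ x ∂μ, Integrable (fun y => F (x, y)) m := by
  have hp0 : p ≠ 0 := (zero_lt_one.trans_le hp).ne'
  by_cases hp' : p = ∞
  · subst hp'
    filter_upwards [Measure.ae_ae_of_ae_prod (ae_le_eLpNormEssSup (f := F) (μ := μ.prod m)),
      hF.1.prodMk_left] with x hx hm
    refine ⟨hm, (lintegral_mono_ae hx).trans_lt ?_⟩
    simpa using hF.2
  · have hq : 0 < p.toReal := ENNReal.toReal_pos hp0 hp'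
    have h1 := lintegral_rpow_enorm_lt_top_of_eLpNorm_lt_top hp0 hp' hF.2
    rw [lintegral_prod _ (hF.1.enorm.pow_const _)] at h1
    have h2 := ae_lt_top' (hF.1.enorm.pow_const p.toReal).lintegral_prod_right' h1.ne
    filter_upwards [marg_pow hF.1 hp hp', h2, hF.1.prodMk_left] with x hx h3 hm
    refine ⟨hm, ?_⟩
    have h4 := hx.trans_lt h3
    exact (ENNReal.rpow_lt_top_iff_of_pos hq).1 h4

end marg

variable {E : Type} [NormedAddCommGroup E] [InnerProductSpace ℝ E] [FiniteDimensional ℝ E]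
  [MeasurableSpace E] [BorelSpace E] (μ : Measure E) [μ.IsAddHaarMeasure]
  (m : Measure E) [IsProbabilityMeasure m]

lemma mp_sub : MeasurePreserving (fun z : E × E => z.1 - z.2) (μ.prod m) μ :=
  measurePreserving_fst.comp (measurePreserving_sub_prod μ m)

/-- The pointwise convolution. -/
noncomputable def cvf (f : E → ℂ) (x : E) : ℂ := ∫ y, f (x - y) ∂m

variable {μ}

lemma ae_ae_sub {P : E → Prop} (h : ∀ᵐ x ∂μ, P x) : ∀ᵐ x ∂μ, ∀ᵐ y ∂m, P (x - y) :=
  Measure.ae_ae_of_ae_prod ((mp_sub μ m).quasiMeasurePreserving.ae h)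

lemma cvf_congr {f g : E → ℂ} (h : f =ᵐ[μ] g) : cvf m f =ᵐ[μ] cvf m g := by
  filter_upwards [ae_ae_sub m h] with x hx
  exact integral_congr_ae hx

lemma cvf_int {p : ℝ≥0∞} (hp : 1 ≤ p) {f : E → ℂ} (hf : MemLp f p μ) :
    ∀ᵐ x ∂μ, Integrable (fun y => f (x - y)) m :=
  ae_integrable_marg hp (hf.comp_measurePreserving (mp_sub μ m))

lemma eLpNorm_cvf {p : ℝ≥0∞} (hp : 1 ≤ p) {f : E → ℂ} (hf : AEStronglyMeasurable f μ) :
    eLpNorm (cvf m f) p μ ≤ eLpNorm f p μ :=
  (eLpNorm_marg (hf.comp_measurePreserving (mp_sub μ m)) hp).trans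
    (eLpNorm_comp_measurePreserving hf (mp_sub μ m)).le

lemma memLp_cvf {p : ℝ≥0∞} (hp : 1 ≤ p) {f : E → ℂ} (hf : MemLp f p μ) : MemLp (cvf m f) p μ :=
  ⟨(hf.1.comp_measurePreserving (mp_sub μ m)).integral_prod_right',
    (eLpNorm_cvf m hp hf.1).trans_lt hf.2⟩

variable (μ)

/-- Convolution with `m` on `L^p`. -/
noncomputable def cv (p : ℝ≥0∞) [Fact (1 ≤ p)] : Lp ℂ p μ →L[ℂ] Lp ℂ p μ :=
  LinearMap.mkContinuous
    { toFun := fun f => (memLp_cvf m Fact.out (Lp.memLp f)).toLp _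
      map_add' := fun f g => by
        rw [← MemLp.toLp_add]
        refine MemLp.toLp_congr _ _ ?_
        filter_upwards [cvf_congr m (Lp.coeFn_add f g), cvf_int m Fact.out (Lp.memLp f),
          cvf_int m Fact.out (Lp.memLp g)] with x h1 h2 h3
        rw [h1]
        exact integral_add h2 h3
      map_smul' := fun a f => by
        rw [RingHom.id_apply, ← MemLp.toLp_const_smul]
        refine MemLp.toLp_congr _ _ ?_
        filter_upwards [cvf_congr m (Lp.coeFn_smul a f)] with x h1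
        rw [h1]
        exact integral_smul a _ } 1 fun f => by
    simp only [LinearMap.coe_mk, AddHom.coe_mk, one_mul]
    rw [Lp.norm_toLp, Lp.norm_def]
    exact ENNReal.toReal_mono (Lp.eLpNorm_ne_top f)
      (eLpNorm_cvf m Fact.out (Lp.aestronglyMeasurable f))

variable {μ} {p : ℝ≥0∞} [Fact (1 ≤ p)]

lemma cv_coe (f : Lp ℂ p μ) : cv μ m p f =ᵐ[μ] cvf m f :=
  (memLp_cvf m Fact.out (Lp.memLp f)).coeFn_toLp

lemma norm_cv_le (f : Lp ℂ p μ) : ‖cv μ m p f‖ ≤ ‖f‖ := by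
  rw [Lp.norm_def, Lp.norm_def, eLpNorm_congr_ae (cv_coe m f)]
  exact ENNReal.toReal_mono (Lp.eLpNorm_ne_top f)
    (eLpNorm_cvf m Fact.out (Lp.aestronglyMeasurable f))

lemma cv_dirac (f : Lp ℂ p μ) : cv μ (Measure.dirac 0) p f = f := by
  refine Lp.ext ?_
  filter_upwards [cv_coe (Measure.dirac 0) f] with x hx
  rw [hx, cvf, integral_dirac, sub_zero]

lemma cv_conv (n : Measure E) [IsProbabilityMeasure n] (f : Lp ℂ p μ) :
    cv μ (m ∗ n) p f = cv μ m p (cv μ n p f) := by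
  refine Lp.ext ?_
  filter_upwards [cv_coe (m ∗ n) f, cv_coe m (cv μ n p f), cvf_congr m (cv_coe n f),
    cvf_int (m ∗ n) Fact.out (Lp.memLp f)] with x h1 h2 h3 h4
  rw [h1, h2, h3, cvf, integral_conv h4]
  simp only [cvf, sub_sub]

/-- `g` dominates `f`. -/
def Dom (μ : Measure E) (f g : E → ℂ) : Prop := ∀ᵐ x ∂μ, ‖f x‖ ≤ (g x).re

lemma cv_dom {f g : Lp ℂ p μ} (h : Dom μ f g) : Dom μ (cv μ m p f) (cv μ m p g) := by
  filter_upwards [cv_coe m f, cv_coe m g, ae_ae_sub m h, cvf_int m Fact.out (Lp.memLp f),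
    cvf_int m Fact.out (Lp.memLp g)] with x h1 h2 h3 h4 h5
  rw [h1, h2]
  refine (norm_integral_le_integral_norm _).trans ?_
  have h6 := integral_re (𝕜 := ℂ) h5
  simp only [RCLike.re_to_complex] at h6
  rw [cvf, ← h6]
  exact integral_mono_ae h4.norm h5.re h3

omit [InnerProductSpace ℝ E] [FiniteDimensional ℝ E] [BorelSpace E] [μ.IsAddHaarMeasure]
  [NormedAddCommGroup E] in
lemma dom_self_iff {f : E → ℂ} : Dom μ f f ↔ AENonneg μ f := by
  refine eventually_congr (.of_forall fun x => ⟨fun h => ?_, fun h => ?_⟩)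
  · refine ⟨(norm_nonneg _).trans h, ?_⟩
    have h1 := Complex.sq_norm (f x)
    rw [Complex.normSq_apply] at h1
    have h2 : ‖f x‖ ^ 2 ≤ (f x).re ^ 2 := pow_le_pow_left₀ (norm_nonneg _) h 2
    have h3 : (f x).im * (f x).im ≤ 0 := by nlinarith
    exact mul_self_eq_zero.1 (le_antisymm h3 (mul_self_nonneg _))
  · rw [← Complex.abs_re_eq_norm.2 h.2, abs_of_nonneg h.1]

lemma shear (s : Set E) (hs : MeasurableSet s) {φ : E → ℝ≥0∞} (hφ : Measurable φ) :
    ∫⁻ x in s, ∫⁻ y, φ (x - y) ∂m ∂μ = ∫⁻ z, φ z * m {y | z + y ∈ s} ∂μ := by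
  have hG : Measurable fun w : E × E => s.indicator 1 w.1 * φ (w.1 - w.2) :=
    ((measurable_one.indicator hs).comp measurable_fst).mul
      (hφ.comp (measurable_fst.sub measurable_snd))
  have h1 := (measurePreserving_add_prod μ m).lintegral_comp hG
  have hG' : Measurable fun a : E × E =>
      s.indicator 1 (a.1 + a.2, a.2).1 * φ ((a.1 + a.2, a.2).1 - (a.1 + a.2, a.2).2) :=
    hG.comp (measurePreserving_add_prod μ m).measurable
  rw [lintegral_prod _ hG.aemeasurable, lintegral_prod _ hG'.aemeasurable] at h1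
  rw [← lintegral_indicator hs]
  refine (lintegral_congr fun x => ?_).trans (h1.symm.trans (lintegral_congr fun z => ?_))
  · by_cases hx : x ∈ s <;> simp [hx]
  · simp only [add_sub_cancel_right]
    have hz : MeasurableSet {y | z + y ∈ s} := (measurable_const_add z) hs
    have hm : Measurable fun y => s.indicator (1 : E → ℝ≥0∞) (z + y) :=
      (measurable_one.indicator hs).comp (measurable_const_add z)
    rw [lintegral_mul_const _ hm, mul_comm, ← lintegral_indicator_one hz]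
    rfl

lemma cv_set_le (s : Set E) (hs : MeasurableSet s) (f : Lp ℂ p μ) :
    ∫⁻ x in s, ‖cv μ m p f x‖ₑ ∂μ ≤ ∫⁻ z, ‖f z‖ₑ * m {y | z + y ∈ s} ∂μ := by
  rw [← shear m s hs (Lp.stronglyMeasurable f).enorm]
  refine lintegral_mono_ae (ae_restrict_of_ae ?_)
  filter_upwards [cv_coe m f] with x hx
  rw [hx]
  exact enorm_integral_le_lintegral_enorm _

lemma cv_set_eq (s : Set E) (hs : MeasurableSet s) (f : Lp ℂ p μ) (hf : Dom μ f f) :
    ∫⁻ x in s, ‖cv μ m p f x‖ₑ ∂μ = ∫⁻ z, ‖f z‖ₑ * m {y | z + y ∈ s} ∂μ := by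
  rw [← shear m s hs (Lp.stronglyMeasurable f).enorm]
  refine lintegral_congr_ae (ae_restrict_of_ae ?_)
  filter_upwards [cv_coe m f, ae_ae_sub m hf, cvf_int m Fact.out (Lp.memLp f)] with x hx h2 h3
  rw [hx]
  refine le_antisymm (enorm_integral_le_lintegral_enorm _) ?_
  rw [← ofReal_integral_norm_eq_lintegral_enorm h3, ← ofReal_norm]
  refine ENNReal.ofReal_le_ofReal ((integral_mono_ae h3.norm h3.re h2).trans ?_)
  have h6 := integral_re (𝕜 := ℂ) h3
  simp only [RCLike.re_to_complex] at h6 ⊢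
  rw [h6]
  exact Complex.re_le_norm _

end Pool.Agent.Lib.MP_62a15f_an.Cv
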