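import Pool.Agent.Lib.MP_62a15f_an.Cv.Form
import Pool.Agent.Lib.MP_62a15f_an.Cv.Lat

/-! The parameters of the example. -/

open MeasureTheory Filter Topology Set Metric
open scoped ENNReal NNReal

set_option linter.unusedSectionVars false

namespace Pool.Agent.Lib.MP_62a15f_an.Cv

/-- escape rate -/
def rr : ℕ → ℕ
  | 0 => 1
  | k + 1 => (2 ^ k + 2) * rr k
/-- rate of the small jumps -/
@[irreducible] def la (k : ℕ) : ℕ := 2 ^ k * rr k
/-- radius of the ground state -/
@[irreducible] def LL (k : ℕ) : ℕ := k * 2 ^ k + (k + la k) + 1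
/-- number of small jumps -/
@[irreducible] def mm (k : ℕ) : ℕ := 32 * LL k
/-- base -/
@[irreducible] def QQ (k : ℕ) : ℕ := 2 * LL k + 1
/-- size of the small jumps -/
@[irreducible] def HH (k : ℕ) : ℕ := QQ k ^ mm k
/-- number of escape jumps -/
@[irreducible] def NN (k : ℕ) : ℕ := 2 ^ k * rr k ^ 2
/-- radius of the region -/
@[irreducible] def RR (k : ℕ) : ℕ := k * 2 ^ k * HH k + 1
/-- first moment -/
@[irreducible] def CC (k : ℕ) : ℕ := la k * HH k + rr k * (2 * RR k * NN k)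
/-- unit of length -/
noncomputable def uu : ℕ → ℝ
  | 0 => 1 / CC 0
  | k + 1 => uu k / (16 * (k + 2) * CC (k + 1))
/-- thickness -/
noncomputable def et (k : ℕ) : ℝ := uu k / (4 * (k + 1))

lemma two_pow_le_rr (k : ℕ) : 2 ^ k ≤ rr k := by
  induction k with
  | zero => rw [rr]; exact le_rfl
  | succ k ih => rw [rr, pow_succ']; exact Nat.mul_le_mul (Nat.le_add_left _ _) ih

lemma rr_pos (k : ℕ) : 0 < rr k := (Nat.two_pow_pos k).trans_le (two_pow_le_rr k)

lemma mm_pos (k : ℕ) : 0 < mm k := by unfold mm LL; omega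

lemma NN_pos (k : ℕ) : 0 < NN k := by have := rr_pos k; unfold NN; positivity

lemma RR_le (k : ℕ) : RR k ≤ CC k := by
  have h1 := rr_pos k
  have h2 := NN_pos k
  have h3 : RR k * 1 ≤ RR k * (rr k * (2 * NN k)) := Nat.mul_le_mul_left _ (Nat.mul_pos h1 (by omega))
  unfold CC
  nlinarith [Nat.zero_le (la k * HH k)]

lemma CC_pos (k : ℕ) : (1 : ℝ) ≤ CC k := by
  have : 1 ≤ CC k := le_trans (by unfold RR; omega) (RR_le k)
  exact_mod_cast this

lemma uu_pos (k : ℕ) : 0 < uu k := by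
  induction k with
  | zero => have := CC_pos 0; rw [uu]; positivity
  | succ k ih => have := CC_pos (k + 1); rw [uu]; positivity

lemma uu_CC (k : ℕ) : uu (k + 1) * CC (k + 1) = uu k / (16 * (k + 2)) := by
  have := CC_pos (k + 1)
  rw [uu]
  field_simp

lemma uu_half (k : ℕ) : uu (k + 1) * CC (k + 1) ≤ uu k / 2 := by
  rw [uu_CC]
  have : (0 : ℝ) ≤ k := k.cast_nonneg
  exact div_le_div_of_nonneg_left (uu_pos k).le two_pos (by linarith)

lemma uu_le_CC (k : ℕ) : uu k ≤ uu k * CC k := le_mul_of_one_le_right (uu_pos k).le (CC_pos k)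

lemma uu_add (k j : ℕ) : uu (k + j) ≤ uu k * 2⁻¹ ^ j := by
  induction j with
  | zero => simp
  | succ j ih =>
    have := (uu_le_CC (k + j + 1)).trans (uu_half (k + j))
    rw [pow_succ, ← add_assoc]
    linarith

lemma uu_CC_le (k : ℕ) : uu k * CC k ≤ 2⁻¹ ^ k := by
  induction k with
  | zero => have := CC_pos 0; rw [uu, pow_zero, one_div, inv_mul_cancel₀ (by positivity)]
  | succ k ih =>
    have := uu_half k
    have := uu_le_CC k
    rw [pow_succ]
    linarith

lemma et_pos (k : ℕ) : 0 < et k := by have := uu_pos k; unfold et; positivity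

lemma uu_tail (k j : ℕ) : uu (j + (k + 1)) * CC (j + (k + 1)) ≤ et k / 4 * 2⁻¹ ^ j := by
  rw [show j + (k + 1) = k + j + 1 by ring, uu_CC, et]
  have h1 := uu_add k j
  have h2 := uu_pos (k + j)
  have h3 : (0 : ℝ) ≤ j := j.cast_nonneg
  have h4 : (0 : ℝ) ≤ k := k.cast_nonneg
  calc uu (k + j) / (16 * ((k + j : ℕ) + 2)) ≤ uu k * 2⁻¹ ^ j / (16 * (k + 1)) :=
        div_le_div₀ (h2.le.trans h1) h1 (by positivity) (by push_cast; linarith)
    _ = _ := by field_simp; ring

lemma uu_RR (k : ℕ) : uu k * RR k ≤ 1 := by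
  have h1 : (RR k : ℝ) ≤ CC k := by exact_mod_cast RR_le k
  exact (mul_le_mul_of_nonneg_left h1 (uu_pos k).le).trans
    ((uu_CC_le k).trans (pow_le_one₀ (by norm_num) (by norm_num)))

lemma la_small (k : ℕ) : (la k : ℝ) * 8⁻¹ ^ (k + la k) ≤ 2⁻¹ ^ k := by
  have h1 : (la k : ℝ) ≤ 8 ^ la k := by
    exact_mod_cast (Nat.lt_pow_self (by norm_num : 1 < 8)).le
  have h2 : (8⁻¹ : ℝ) ^ k ≤ 2⁻¹ ^ k := pow_le_pow_left₀ (by norm_num) (by norm_num) k
  have h3 : (la k : ℝ) * 8⁻¹ ^ la k ≤ 1 := by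
    rw [inv_pow, ← div_eq_mul_inv, div_le_one (by positivity)]; exact h1
  rw [pow_add, mul_left_comm]
  exact (mul_le_of_le_one_right (by positivity) h3).trans h2

variable {E : Type} [NormedAddCommGroup E] [InnerProductSpace ℝ E] [FiniteDimensional ℝ E]
  [MeasurableSpace E] [BorelSpace E] (e : E)

/-- the small jumps -/
noncomputable def sa (k : ℕ) (i : Fin (mm k)) : E := (uu k * QQ k ^ (i : ℕ)) • e
/-- the escape jumps -/
noncomputable def sb (k : ℕ) (j : Fin (NN k)) : E := (uu k * (2 * RR k) * (j + 1)) • e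
/-- the centres -/
noncomputable def xx (k : ℕ) : E := (4 * k : ℝ) • e
/-- the chain of regions -/
def WW (k j : ℕ) : Set E := Wd (sa e k) (xx e k) (j * 2 ^ k) ((j + 1) * et k)
/-- measure of the small jumps -/
noncomputable def na (k : ℕ) : Measure E := (la k / (2 * mm k) : ℝ≥0) • sym (sa e k)
/-- measure of the escape jumps -/
noncomputable def nb (k : ℕ) : Measure E := (rr k / (2 * NN k) : ℝ≥0) • sym (sb e k)
/-- the jump measure of level `k` -/
noncomputable def nu (k : ℕ) : Measure E := nb e k + na e k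

instance na_fin (k : ℕ) : IsFiniteMeasure (na e k) := by unfold na; infer_instance
instance nb_fin (k : ℕ) : IsFiniteMeasure (nb e k) := by unfold nb; infer_instance
instance nu_fin (k : ℕ) : IsFiniteMeasure (nu e k) := by unfold nu; infer_instance

lemma nu_neg (k : ℕ) : (nu e k).map (fun y => -y) = nu e k := by
  rw [nu, Measure.map_add _ _ measurable_neg, na, nb, Measure.map_smul, Measure.map_smul, sym_neg,
    sym_neg]

lemma smul_sym_univ {m : ℕ} (hm : 0 < m) (a : ℕ) (σ : Fin m → E) :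
    ((a / (2 * m) : ℝ≥0) • sym σ) univ = a := by
  have h : (a / (2 * m) : ℝ≥0) * (2 * m) = a := div_mul_cancel₀ _ (by positivity)
  rw [Measure.smul_apply, sym_univ, ENNReal.smul_def, smul_eq_mul]
  exact_mod_cast congrArg (fun x : ℝ≥0 => (x : ℝ≥0∞)) h

lemma smul_sym_le {m : ℕ} (hm : 0 < m) (a : ℕ) (σ : Fin m → E) {F : E → ℝ≥0∞} {c : ℝ≥0∞}
    (h : ∀ i, F (σ i) ≤ c ∧ F (-σ i) ≤ c) :
    ∫⁻ y, F y ∂((a / (2 * m) : ℝ≥0) • sym σ) ≤ a * c := by
  rw [← smul_sym_univ hm a σ, mul_comm _ c, ← lintegral_const, lintegral_smul_measure,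
    lintegral_smul_measure, lint_sym, lint_sym]
  exact smul_le_smul_left _ (Finset.sum_le_sum fun i _ => add_le_add (h i).1 (h i).2)

lemma na_univ (k : ℕ) : na e k univ = la k := smul_sym_univ (mm_pos k) _ _
lemma nb_univ (k : ℕ) : nb e k univ = rr k := smul_sym_univ (NN_pos k) _ _

lemma slow_mass (k : ℕ) : (∑ i ∈ Finset.range k, nu e i) univ ≤ rr k := by
  induction k with
  | zero => simp
  | succ k ih =>
    rw [Finset.sum_range_succ, Measure.add_apply, nu, Measure.add_apply, na_univ, nb_univ]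
    refine (add_le_add ih le_rfl).trans (le_of_eq ?_)
    rw [rr, la]
    push_cast
    ring

variable {e} (he : ‖e‖ = 1)
include he

lemma norm_sa (k : ℕ) (i : Fin (mm k)) : ‖sa e k i‖ ≤ uu k * HH k := by
  have h1 := uu_pos k
  have h2 : QQ k ^ (i : ℕ) ≤ HH k := by
    unfold HH; exact Nat.pow_le_pow_right (by unfold QQ; omega) i.2.le
  rw [sa, norm_smul, he, mul_one, Real.norm_of_nonneg (by positivity)]
  exact mul_le_mul_of_nonneg_left (by exact_mod_cast h2) h1.le

lemma norm_sb (k : ℕ) (j : Fin (NN k)) : ‖sb e k j‖ ≤ uu k * (2 * RR k) * NN k := by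
  have h1 := uu_pos k
  have h2 : (j : ℕ) + 1 ≤ NN k := j.2
  rw [sb, norm_smul, he, mul_one, Real.norm_of_nonneg (by positivity)]
  exact mul_le_mul_of_nonneg_left (by exact_mod_cast h2) (by positivity)

lemma mom_nu_le (k : ℕ) : ∫⁻ y, ‖y‖ₑ ∂nu e k ≤ ENNReal.ofReal (uu k * CC k) := by
  have h1 := uu_pos k
  have hh : ∀ {v : E} {c : ℝ}, ‖v‖ ≤ c → ‖v‖ₑ ≤ ENNReal.ofReal c ∧ ‖-v‖ₑ ≤ ENNReal.ofReal c :=
    fun h => by rw [enorm_neg, ← ofReal_norm]; exact ⟨ENNReal.ofReal_le_ofReal h,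
      ENNReal.ofReal_le_ofReal h⟩
  rw [nu, lintegral_add_measure]
  refine (add_le_add (smul_sym_le (NN_pos k) _ _ fun j => hh (norm_sb he k j))
    (smul_sym_le (mm_pos k) _ _ fun i => hh (norm_sa he k i))).trans (le_of_eq ?_)
  rw [← ENNReal.ofReal_natCast, ← ENNReal.ofReal_natCast (la k),
    ← ENNReal.ofReal_mul (by positivity), ← ENNReal.ofReal_mul (by positivity),
    ← ENNReal.ofReal_add (by positivity) (by positivity), CC]
  congr 1
  push_cast
  ring

omit he in
lemma tsum_half {c : ℝ} (hc : 0 ≤ c) :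
    ∑' j : ℕ, ENNReal.ofReal (c * 2⁻¹ ^ j) = ENNReal.ofReal (2 * c) := by
  have h := (hasSum_geometric_two.mul_left c)
  rw [one_div] at h
  rw [← ENNReal.ofReal_tsum_of_nonneg (fun j => by positivity) h.summable, h.tsum_eq, mul_comm]

lemma mom_nu : mom (nu e) ≤ 2 := by
  refine (ENNReal.tsum_le_tsum fun k => (mom_nu_le he k).trans
    (ENNReal.ofReal_le_ofReal ((uu_CC_le k).trans (one_mul _).ge))).trans ?_
  rw [tsum_half zero_le_one]
  simp

lemma mom_nu_ne : mom (nu e) ≠ ∞ := ne_top_of_le_ne_top (by simp) (mom_nu he)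

lemma mom_fast (k : ℕ) : mom (cut (Finset.range (k + 1)) (nu e)) ≤ ENNReal.ofReal (et k) := by
  have h0 := et_pos k
  rw [mom, ← Summable.sum_add_tsum_nat_add' (k := k + 1) ENNReal.summable,
    Finset.sum_eq_zero fun i hi => by rw [cut, if_pos hi, lintegral_zero_measure], zero_add]
  refine (ENNReal.tsum_le_tsum fun j => ?_).trans
    ((tsum_half (c := et k / 4) (by positivity)).le.trans (ENNReal.ofReal_le_ofReal (by linarith)))
  rw [cut, if_neg (by simp only [Finset.mem_range]; omega)]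
  exact (mom_nu_le he _).trans (ENNReal.ofReal_le_ofReal (uu_tail k j))

omit he in
lemma WW_mono {k j : ℕ} (h : j ≤ k) : WW e k j ⊆ WW e k k := by
  rintro x ⟨u, h1, h2⟩
  have h3 : (j : ℝ) ≤ k := by exact_mod_cast h
  exact ⟨u, h1.trans (Nat.mul_le_mul_right _ h),
    h2.trans_le (mul_le_mul_of_nonneg_right (by linarith) (et_pos k).le)⟩

omit he in
lemma et_mul (k : ℕ) : ((k : ℝ) + 1) * et k = uu k / 4 := by unfold et; field_simp

lemma WW_ball (k : ℕ) : WW e k k ⊆ ball (xx e k) (uu k * RR k) := by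
  rintro x ⟨u, h1, h2⟩
  have h0 := uu_pos k
  have h3 := norm_pos_le _ (norm_sa he k) u
  have h4 : (l1 u : ℝ) ≤ k * 2 ^ k := by exact_mod_cast h1
  have h5 := norm_add_le (x - xx e k - pos (sa e k) u) (pos (sa e k) u)
  have h6 := mul_le_mul_of_nonneg_right h4 (show 0 ≤ uu k * HH k by positivity)
  rw [sub_add_cancel] at h5
  rw [et_mul] at h2
  rw [mem_ball, dist_eq_norm, RR]
  push_cast
  nlinarith

lemma sa_sep (k : ℕ) (u v : Fin (mm k) → ℤ) (hu : l1 u ≤ LL k) (hv : l1 v ≤ LL k)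
    (h : ‖pos (sa e k) u - pos (sa e k) v‖ < 2 * ((k + 1) * et k)) : u = v := by
  have h0 := uu_pos k
  have h1 : pos (sa e k) u - pos (sa e k) v =
      (uu k * ((∑ i, (u - v) i * (QQ k : ℤ) ^ (i : ℕ) : ℤ) : ℝ)) • e := by
    unfold pos sa
    push_cast
    rw [← Finset.sum_sub_distrib, Finset.mul_sum, Finset.sum_smul]
    refine Finset.sum_congr rfl fun i _ => ?_
    rw [← sub_smul, ← Int.cast_smul_eq_zsmul ℝ, smul_smul, Pi.sub_apply]
    congr 1
    ring
  rw [h1, norm_smul, he, mul_one, et_mul, norm_mul, Real.norm_of_nonneg h0.le, Real.norm_eq_abs,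
    ← Int.cast_abs] at h
  have h2 : ((|∑ i, (u - v) i * (QQ k : ℤ) ^ (i : ℕ)| : ℤ) : ℝ) < 1 := by
    by_contra h3
    nlinarith [mul_le_mul_of_nonneg_left (not_lt.1 h3) h0.le]
  have h3 := Int.abs_lt_one_iff.1 (by exact_mod_cast h2)
  refine sub_eq_zero.1 (digits_zero (Q := (QQ k : ℤ)) (by unfold QQ; omega) _ _ (fun i => ?_) h3)
  have h4 := le_l1 u i
  have h5 := le_l1 v i
  rw [Pi.sub_apply, abs_lt, QQ]
  omega

lemma sb_few (k : ℕ) (c : E) {a : ℝ} (ha : |a| = 1) :
    ∑ j, (ball c (uu k * RR k)).indicator (1 : E → ℝ≥0∞) (a • sb e k j) ≤ 1 := by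
  by_cases h : ∃ j, a • sb e k j ∈ ball c (uu k * RR k)
  · obtain ⟨j, hj⟩ := h
    rw [Finset.sum_eq_single j (fun i _ hij => indicator_of_notMem (fun hi => hij ?_) _) (by simp)]
    · exact indicator_le_self _ _ _
    have h0 : 0 < uu k * RR k := (dist_nonneg.trans_lt hj)
    have h1 := dist_triangle_right (a • sb e k i) (a • sb e k j) c
    rw [dist_eq_norm, ← smul_sub, sb, sb, ← sub_smul, norm_smul, norm_smul, he, Real.norm_eq_abs,
      ha, ← mul_sub, norm_mul, Real.norm_of_nonneg (by nlinarith)] at h1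
    have h2 : |((i : ℕ) : ℝ) - (j : ℕ)| < 1 := by
      by_contra h3
      rw [add_sub_add_right_eq_sub, Real.norm_eq_abs] at h1
      have := mem_ball.1 hi
      have := mem_ball.1 hj
      simp only [sb] at *
      nlinarith [mul_le_mul_of_nonneg_left (not_lt.1 h3) h0.le]
    have h3 : |((i : ℕ) : ℤ) - (j : ℕ)| < 1 := by exact_mod_cast h2
    exact Fin.ext (by have := Int.abs_lt_one_iff.1 h3; omega)
  · push Not at h
    simp [h]

lemma xx_far {k j : ℕ} {x : E} (hk : x ∈ ball (xx e k) 2) (hj : x ∈ ball (xx e j) 2) : k = j := by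
  have h1 := dist_triangle_left (xx e k) (xx e j) x
  rw [dist_eq_norm, xx, xx, ← sub_smul, norm_smul, he, mul_one, ← mul_sub, norm_mul,
    Real.norm_eq_abs, Real.norm_eq_abs] at h1
  have h2 : |(k : ℝ) - j| < 1 := by
    have := mem_ball.1 hk
    have := mem_ball.1 hj
    simp only [xx] at *
    rw [abs_of_pos (by norm_num : (0 : ℝ) < 4)] at h1
    linarith
  have h3 : |(k : ℤ) - j| < 1 := by exact_mod_cast h2
  have := Int.abs_lt_one_iff.1 h3
  omega

end Pool.Agent.Lib.MP_62a15f_an.Cv
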