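import Pool.Agent.Lib.MP_62a15f_an.Cv.Op
import Pool.Agent.Lib.MP_62a15f_an.Cv.Defs

/-! A symmetric convolution semigroup is a symmetric sub-Markovian semigroup. -/

open MeasureTheory Filter Topology
open scoped ENNReal NNReal InnerProductSpace ComplexConjugate

set_option linter.unusedSectionVars false

namespace Pool.Agent.Lib.MP_62a15f_an.Cv

variable {E : Type} [NormedAddCommGroup E] [InnerProductSpace ℝ E] [FiniteDimensional ℝ E]
  [MeasurableSpace E] [BorelSpace E] {μ : Measure E} [μ.IsAddHaarMeasure]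
  {p : ℝ≥0∞} [Fact (1 ≤ p)]

/-- Translation. -/
noncomputable def tr (y : E) (f : Lp ℂ p μ) : Lp ℂ p μ :=
  Lp.compMeasurePreserving (fun x => x - y) (measurePreserving_sub_right μ y) f

lemma tr_coe (y : E) (f : Lp ℂ p μ) : tr y f =ᵐ[μ] fun x => f (x - y) :=
  Lp.coeFn_compMeasurePreserving f (measurePreserving_sub_right μ y)

lemma norm_tr (y : E) (f : Lp ℂ p μ) : ‖tr y f‖ = ‖f‖ :=
  Lp.norm_compMeasurePreserving f (measurePreserving_sub_right μ y)

lemma tr_zero (f : Lp ℂ p μ) : tr 0 f = f :=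
  Lp.ext ((tr_coe 0 f).mono fun x hx => by simp only [hx, sub_zero])

lemma tr_cont (hp : p ≠ ∞) (f : Lp ℂ p μ) : Continuous fun y : E => tr y f := by
  let g : C(E, C(E, E)) :=
    (ContinuousMap.mk (fun a : E × E => a.2 - a.1) (continuous_snd.sub continuous_fst)).curry
  exact continuous_const.compMeasurePreservingLp g.continuous
    (fun y => measurePreserving_sub_right μ y) hp

omit [InnerProductSpace ℝ E] [FiniteDimensional ℝ E] in
lemma tendsto_dirac {ι : Type} {l : Filter ι} {κ : ι → Measure E}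
    [∀ i, IsProbabilityMeasure (κ i)]
    (hκ : ∀ ε : ℝ, 0 < ε → Tendsto (fun i => κ i {y | ε ≤ ‖y‖}) l (𝓝 0))
    [SecondCountableTopology E] {G : E → ℝ} (hG : Continuous G) {C : ℝ} (hC : ∀ y, |G y| ≤ C) :
    Tendsto (fun i => ∫ y, G y ∂κ i) l (𝓝 (G 0)) := by
  rw [Metric.tendsto_nhds]
  intro ε hε
  obtain ⟨η, hη, h1⟩ := Metric.continuousAt_iff.1 (hG.continuousAt (x := 0)) (ε / 4) (by positivity)
  have hC0 : 0 ≤ C := (abs_nonneg _).trans (hC 0)
  have h2 := (ENNReal.tendsto_toReal ENNReal.zero_ne_top).comp (hκ η hη)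
  have h3 := (h2.const_mul (2 * C)).eventually
    (gt_mem_nhds (show 2 * C * (0 : ℝ≥0∞).toReal < ε / 2 by simpa using hε))
  filter_upwards [h3] with i hi
  have hs : MeasurableSet {y : E | η ≤ ‖y‖} :=
    (isClosed_le continuous_const continuous_norm).measurableSet
  have hGi : Integrable G (κ i) :=
    Integrable.of_bound hG.aestronglyMeasurable C (.of_forall hC)
  have h4 : ∫ y, G y ∂κ i - G 0 = ∫ y, (G y - G 0) ∂κ i := by
    rw [integral_sub hGi (integrable_const _)]; simp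
  have hI : Integrable ({y : E | η ≤ ‖y‖}.indicator fun _ => 2 * C) (κ i) :=
    (integrable_const _).indicator hs
  rw [Real.dist_eq, h4]
  have h5 : ∫ y, |G y - G 0| ∂κ i ≤
      ∫ y, (ε / 4 + {y : E | η ≤ ‖y‖}.indicator (fun _ => 2 * C) y) ∂κ i := by
    refine integral_mono (hGi.sub (integrable_const _)).abs ((integrable_const _).add hI)
      fun y => ?_
    by_cases hy : η ≤ ‖y‖
    · have := abs_sub (G y) (G 0)
      simp only [Set.indicator_of_mem (show y ∈ {y : E | η ≤ ‖y‖} from hy)]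
      linarith [hC y, hC 0]
    · have := h1 (x := y) (by simpa using hy)
      simp only [Set.indicator_of_notMem (show y ∉ {y : E | η ≤ ‖y‖} from hy)]
      rw [Real.dist_eq] at this
      linarith
  rw [integral_add (integrable_const _) hI, integral_indicator_const _ hs] at h5
  simp only [integral_const, smul_eq_mul, Measure.real,
    Function.comp] at h5 hi
  have h6 := abs_integral_le_integral_abs (μ := κ i) (f := fun y => G y - G 0)
  simp only [measure_univ, ENNReal.toReal_one, one_mul] at h5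
  nlinarith

variable (m : Measure E) [IsProbabilityMeasure m]

lemma norm_cv_sub (hp : p ≠ ∞) (f : Lp ℂ p μ) :
    ‖cv μ m p f - f‖ ^ p.toReal ≤ ∫ y, ‖tr y f - f‖ ^ p.toReal ∂m := by
  have hp1 : 1 ≤ p := Fact.out
  have hp0 : p ≠ 0 := (zero_lt_one.trans_le hp1).ne'
  have hq : 0 < p.toReal := ENNReal.toReal_pos hp0 hp
  let F : E × E → ℂ := fun z => f (z.1 - z.2) - f z.1
  have hF : AEStronglyMeasurable F (μ.prod m) :=
    ((Lp.aestronglyMeasurable f).comp_measurePreserving (mp_sub μ m)).sub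
      ((Lp.aestronglyMeasurable f).comp_measurePreserving measurePreserving_fst)
  have h1 : (cv μ m p f - f : Lp ℂ p μ) =ᵐ[μ] fun x => ∫ y, F (x, y) ∂m := by
    filter_upwards [Lp.coeFn_sub (cv μ m p f) f, cv_coe m f, cvf_int m hp1 (Lp.memLp f)]
      with x h1 h2 h3
    simp only [F]
    rw [h1, Pi.sub_apply, h2, integral_sub h3 (integrable_const _)]
    simp [cvf]
  have key : ∀ g : Lp ℂ p μ, ENNReal.ofReal (‖g‖ ^ p.toReal) = ∫⁻ x, ‖g x‖ₑ ^ p.toReal ∂μ := by
    intro g
    rw [← ENNReal.ofReal_rpow_of_nonneg (norm_nonneg _) hq.le, Lp.norm_def,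
      ENNReal.ofReal_toReal (Lp.eLpNorm_ne_top g), eLpNorm_eq_lintegral_rpow_enorm_toReal hp0 hp,
      ← ENNReal.rpow_mul, one_div, inv_mul_cancel₀ hq.ne', ENNReal.rpow_one]
  have hc : Continuous fun y : E => ‖tr y f - f‖ ^ p.toReal :=
    ((tr_cont hp f).sub continuous_const).norm.rpow_const fun _ => Or.inr hq.le
  have hi : Integrable (fun y : E => ‖tr y f - f‖ ^ p.toReal) m :=
    Integrable.of_bound hc.aestronglyMeasurable ((2 * ‖f‖) ^ p.toReal) (.of_forall fun y => by
      rw [Real.norm_of_nonneg (by positivity)]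
      refine Real.rpow_le_rpow (norm_nonneg _) ((norm_sub_le _ _).trans ?_) hq.le
      rw [norm_tr]; linarith)
  rw [← ENNReal.ofReal_le_ofReal_iff (integral_nonneg fun y => by positivity),
    ofReal_integral_eq_lintegral_ofReal hi (.of_forall fun y => by positivity), key]
  have h2 : ∫⁻ x, ‖(cv μ m p f - f : Lp ℂ p μ) x‖ₑ ^ p.toReal ∂μ ≤
      ∫⁻ z, ‖F z‖ₑ ^ p.toReal ∂(μ.prod m) := by
    rw [lintegral_prod _ (hF.enorm.pow_const _)]
    refine lintegral_mono_ae ?_
    filter_upwards [h1, marg_pow hF hp1 hp] with x h1 hx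
    rw [h1]
    exact (ENNReal.rpow_le_rpow (enorm_integral_le_lintegral_enorm _) hq.le).trans hx
  refine h2.trans (le_of_eq ?_)
  rw [lintegral_prod_symm _ (hF.enorm.pow_const _)]
  refine lintegral_congr fun y => ?_
  rw [key]
  refine lintegral_congr_ae ?_
  filter_upwards [Lp.coeFn_sub (tr y f) f, tr_coe y f] with x h1 h2
  rw [h1, Pi.sub_apply, h2]

lemma inner_cv (g f : Lp ℂ 2 μ) : ⟪g, cv μ m 2 f⟫_ℂ = ∫ y, ⟪g, tr y f⟫_ℂ ∂m := by
  have hg : MemLp (fun z : E × E => g z.1) 2 (μ.prod m) :=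
    (Lp.memLp g).comp_measurePreserving measurePreserving_fst
  have hf : MemLp (fun z : E × E => f (z.1 - z.2)) 2 (μ.prod m) :=
    (Lp.memLp f).comp_measurePreserving (mp_sub μ m)
  have hi : Integrable (fun z : E × E => ⟪g z.1, f (z.1 - z.2)⟫_ℂ) (μ.prod m) :=
    (hg.norm.integrable_mul hf.norm).mono' (hg.1.inner hf.1)
      (.of_forall fun z => norm_inner_le_norm _ _)
  have h1 : ⟪g, cv μ m 2 f⟫_ℂ = ∫ x, ∫ y, ⟪g x, f (x - y)⟫_ℂ ∂m ∂μ := by
    rw [L2.inner_def]
    refine integral_congr_ae ?_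
    filter_upwards [cv_coe m f, cvf_int m Fact.out (Lp.memLp f)] with x h1 h2
    rw [h1, integral_inner h2]
    rfl
  rw [h1, integral_integral_swap hi]
  refine integral_congr_ae (.of_forall fun y => ?_)
  simp only
  rw [L2.inner_def]
  refine integral_congr_ae ?_
  filter_upwards [tr_coe y f] with x hx
  rw [hx]

lemma inner_tr (y : E) (g f : Lp ℂ 2 μ) : ⟪tr y g, f⟫_ℂ = ⟪g, tr (-y) f⟫_ℂ := by
  rw [L2.inner_def, L2.inner_def]
  have h1 : ∫ x, ⟪tr y g x, f x⟫_ℂ ∂μ = ∫ x, ⟪g (x - y), f x⟫_ℂ ∂μ :=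
    integral_congr_ae ((tr_coe y g).mono fun x hx => by simp only [hx])
  have h2 : ∫ x, ⟪g x, tr (-y) f x⟫_ℂ ∂μ = ∫ x, ⟪g x, f (x + y)⟫_ℂ ∂μ :=
    integral_congr_ae ((tr_coe (-y) f).mono fun x hx => by simp only [hx, sub_neg_eq_add])
  rw [h1, h2, ← integral_add_right_eq_self _ y]
  simp only [add_sub_cancel_right]

lemma cv_symm (hm : m.map (fun y => -y) = m) (f g : Lp ℂ 2 μ) :
    ⟪cv μ m 2 f, g⟫_ℂ = ⟪f, cv μ m 2 g⟫_ℂ := by
  rw [← inner_conj_symm, inner_cv, inner_cv, ← integral_conj]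
  simp only [inner_conj_symm, inner_tr]
  have hc : Continuous fun y : E => ⟪f, tr y g⟫_ℂ :=
    continuous_const.inner (tr_cont (by norm_num) g)
  conv_rhs => rw [← hm]
  rw [integral_map measurable_neg.aemeasurable hc.aestronglyMeasurable]

variable (μ) in
/-- The family of convolution operators. -/
noncomputable def UU (w : ℝ≥0 → Measure E) [∀ t, IsProbabilityMeasure (w t)] : Family μ :=
  fun p _ t => cv μ (w t) p

variable {w : ℝ≥0 → Measure E} [∀ t, IsProbabilityMeasure (w t)]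

lemma UU_acts : ActsBy (UU μ w) w := fun _ _ t f => cv_coe (w t) f

lemma cv_congr {a b : Measure E} [IsProbabilityMeasure a] [IsProbabilityMeasure b] (h : a = b) :
    cv μ a p = cv μ b p := by subst h; rfl

lemma UU_law (hw : IsConvSemigroup w) : SemigroupLaw (UU μ w p) := fun f =>
  ⟨by
    show cv μ (w 0) p f = f
    rw [cv_congr hw.2.2.1, cv_dirac], fun s t => by
    show cv μ (w (s + t)) p f = cv μ (w s) p (cv μ (w t) p f)
    rw [cv_congr (hw.2.2.2.1 s t), cv_conv]⟩

lemma UU_contr : Contractive (UU μ w p) := fun t f => norm_cv_le (w t) f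

lemma UU_cont (hw : IsConvSemigroup w) (hp : p ≠ ∞) : StronglyContinuous (UU μ w p) := by
  intro f
  have hp1 : 1 ≤ p := Fact.out
  have hq : 0 < p.toReal := ENNReal.toReal_pos (zero_lt_one.trans_le hp1).ne' hp
  have hc : Continuous fun y : E => ‖tr y f - f‖ ^ p.toReal :=
    ((tr_cont hp f).sub continuous_const).norm.rpow_const fun _ => Or.inr hq.le
  have h1 := tendsto_dirac hw.2.2.2.2 hc (C := (2 * ‖f‖) ^ p.toReal) (fun y => by
      rw [abs_of_nonneg (by positivity)]
      refine Real.rpow_le_rpow (norm_nonneg _) ((norm_sub_le _ _).trans ?_) hq.le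
      rw [norm_tr]; linarith)
  simp only [tr_zero, sub_self, norm_zero, Real.zero_rpow hq.ne'] at h1
  have h2 : Tendsto (fun t => ‖cv μ (w t) p f - f‖ ^ p.toReal) (𝓝 0) (𝓝 0) :=
    squeeze_zero (fun t => by positivity) (fun t => norm_cv_sub (w t) hp f) h1
  have h3 : Tendsto (fun t => ‖cv μ (w t) p f - f‖) (𝓝 0) (𝓝 0) := by
    have h4 := h2.rpow_const (p := p.toReal⁻¹) (Or.inr (by positivity))
    simpa only [Real.rpow_rpow_inv (norm_nonneg _) hq.ne',
      Real.zero_rpow (inv_ne_zero hq.ne')] using h4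
  have h5 : ∀ s t : ℝ≥0, s ≤ t →
      ‖cv μ (w t) p f - cv μ (w s) p f‖ ≤ ‖cv μ (w (t - s)) p f - f‖ := by
    intro s t hst
    have h6 : cv μ (w t) p f = cv μ (w s) p (cv μ (w (t - s)) p f) := by
      have := (UU_law (μ := μ) (p := p) hw f).2 s (t - s)
      rwa [add_tsub_cancel_of_le hst] at this
    rw [h6, ← map_sub]
    exact norm_cv_le _ _
  rw [continuous_iff_continuousAt]
  intro s
  rw [ContinuousAt, tendsto_iff_norm_sub_tendsto_zero]
  have h7 : Tendsto (fun t : ℝ≥0 => nndist t s) (𝓝 s) (𝓝 0) := by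
    simpa using (continuous_id.nndist (continuous_const (y := s))).tendsto s
  refine squeeze_zero (fun t => norm_nonneg _) (fun t => ?_) (h3.comp h7)
  show ‖cv μ (w t) p f - cv μ (w s) p f‖ ≤ ‖cv μ (w (nndist t s)) p f - f‖
  rcases le_total s t with h | h
  · rw [NNReal.nndist_eq, tsub_eq_zero_of_le h, max_eq_left zero_le]
    exact h5 s t h
  · rw [NNReal.nndist_eq, tsub_eq_zero_of_le h, max_eq_right zero_le, norm_sub_rev]
    exact h5 t s h

theorem UU_ssm (hw : IsConvSemigroup w) : IsSymmSubMarkov (UU μ w) := by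
  refine ⟨fun p q _ _ t f g h => ?_, fun p _ t f h => ?_, fun p _ => UU_law hw, UU_contr,
    UU_contr, fun p _ hp => UU_cont hw hp, fun t f g => cv_symm (w t) (hw.2.1 t) f g⟩
  · exact (cv_coe (w t) f).trans ((cvf_congr (w t) h).trans (cv_coe (w t) g).symm)
  · exact dom_self_iff.1 (cv_dom (w t) (dom_self_iff.2 h))

end Pool.Agent.Lib.MP_62a15f_an.Cv
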